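import Pool.Agent.Helper58.MAD.Defs

open CategoryTheory MonoidalCategory Limits TensorProduct
open Pool.Agent.Helper15.Murre

universe w v u

namespace Pool.Agent.Helper58.MAD

section one

variable {C : Type u} [Category.{v} C] [Preadditive C] [Linear ℚ C]
  [MonoidalCategory C] [SymmetricCategory C] [RigidCategory C]
  {F : Type w} [Field F] {W : MotivicHomology C F}

variable (W) in
/-- the ideal of homologically trivial endomorphisms -/
def homIdeal (M : C) : TwoSidedIdeal (End M) :=
  TwoSidedIdeal.mk' {x : End M | W.H.map x.asHom = 0}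
    (by
      have : (0 : End M).asHom = 0 := rfl
      change W.H.map (0 : End M).asHom = 0
      rw [this, W.map_zero'])
    (by
      intro x y hx hy
      have : (x + y : End M).asHom = x.asHom + y.asHom := rfl
      have h := W.additive
      change W.H.map (x + y : End M).asHom = 0
      rw [this, Functor.map_add, hx, hy, add_zero])
    (by
      intro x hx
      have : (-x : End M).asHom = - x.asHom := rfl
      have h := W.additive
      change W.H.map (-x : End M).asHom = 0
      rw [this, Functor.map_neg, hx, neg_zero])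
    (by
      intro x y hy
      have : (x * y : End M).asHom = y.asHom ≫ x.asHom := rfl
      change W.H.map (x * y : End M).asHom = 0
      rw [this, Functor.map_comp, hy, zero_comp])
    (by
      intro x y hx
      have : (x * y : End M).asHom = y.asHom ≫ x.asHom := rfl
      change W.H.map (x * y : End M).asHom = 0
      rw [this, Functor.map_comp, hx, comp_zero])

lemma mem_homIdeal {M : C} (x : End M) : x ∈ homIdeal W M ↔ W.H.map x.asHom = 0 := by
  unfold homIdeal
  rw [TwoSidedIdeal.mem_mk']
  rfl

omit [Preadditive C] [Linear ℚ C] [MonoidalCategory C] [SymmetricCategory C] [RigidCategory C] in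
lemma pw_eq_pow_lift {M : C} (f : M ⟶ M) (m : ℕ) : pw f m = ((End.of f) ^ m : End M).asHom := by
  induction m with
  | zero => rfl
  | succ m ih =>
    rw [pow_succ']
    change pw f m ≫ f = _
    rw [ih]
    rfl

lemma NilHom.isNilpotent (hN : NilHom W) {M : C} (x : End M) (hx : W.H.map x.asHom = 0) :
    IsNilpotent x := by
  obtain ⟨m, hm⟩ := hN M x.asHom hx
  refine ⟨m, ?_⟩
  rw [pw_eq_pow_lift] at hm
  exact hm

/-- the degrees in which the homology of `M` is not zero -/
lemma exists_degrees (W : MotivicHomology C F) (M : C) : ∃ s : Finset ℤ, ∀ q, q ∉ s →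
    ∀ x ∈ W.gr M q, x = 0 := by
  classical
  have hf := W.finite M
  have h1 := (W.isInternal M).submodule_iSupIndep
  have h2 : {q | W.gr M q ≠ ⊥}.Finite :=
    WellFoundedGT.finite_ne_bot_of_iSupIndep h1
  refine ⟨h2.toFinset, fun q hq x hx => ?_⟩
  have h3 : W.gr M q = ⊥ := by
    by_contra h
    exact hq (by simpa using h)
  rw [h3] at hx
  simpa using hx

/-- If homologically trivial endomorphisms are nilpotent and the Kunneth projectors of `M` are
algebraic, then `M` has a Chow-Kunneth decomposition. -/
theorem NilHom.exists_CK (hN : NilHom W) {M : C} (hK : KunnethHom W M) : MurreA W M := by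
  classical
  have hadd := W.additive
  obtain ⟨s, hs⟩ := exists_degrees W M
  choose x hxH using hK
  let J := homIdeal W M
  let φ := J.ringCon.mk'
  have hker : ∀ x : End M, φ x = 0 ↔ x ∈ J := by
    intro x
    have h1 := TwoSidedIdeal.ker_ringCon_mk' J
    rw [← TwoSidedIdeal.mem_ker, h1]
  have heq : ∀ x y : End M, φ x = φ y ↔ x - y ∈ J := by
    intro x y
    rw [← hker, map_sub, sub_eq_zero]
  have heqH : ∀ x y : End M, φ x = φ y ↔ W.H.map x.asHom = W.H.map y.asHom := by
    intro x y
    rw [heq, mem_homIdeal]
    have : (x - y : End M).asHom = x.asHom - y.asHom := rfl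
    rw [this, Functor.map_sub, sub_eq_zero]
  have hco : CompleteOrthogonalIdempotents (fun n : {n // n ∈ s} => φ (End.of (x n))) := by
    refine ⟨⟨?_, ?_⟩, ?_⟩
    · intro n
      change φ _ * φ _ = φ _
      rw [← map_mul, heqH]
      apply W.hext
      intro j z hz
      change (W.H.map (x n ≫ x n)).hom z = (W.H.map (x n)).hom z
      rw [W.map_comp_apply, hxH n j z hz]
      split_ifs with h
      · rw [hxH n j z hz, if_pos h]
      · rw [map_zero]
    · intro n m hnm
      change φ _ * φ _ = 0
      rw [← map_mul, ← map_zero φ, heqH]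
      apply W.hext
      intro j z hz
      change (W.H.map (x m ≫ x n)).hom z = (W.H.map (0 : M ⟶ M)).hom z
      rw [W.map_comp_apply, hxH m j z hz, W.map_zero_apply]
      split_ifs with h
      · rw [hxH n j z hz, if_neg]
        intro h'
        exact hnm (Subtype.ext (h'.symm.trans h))
      · rw [map_zero]
    · rw [← map_sum, ← map_one φ, heqH]
      apply W.hext
      intro j z hz
      have h1 : (∑ n : {n // n ∈ s}, End.of (x n) : End M).asHom = ∑ n ∈ s, x n := by
        rw [← Finset.sum_coe_sort s]
      rw [h1, Functor.map_sum]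
      have h2 : (∑ n ∈ s, W.H.map (x n)).hom z = ∑ n ∈ s, (W.H.map (x n)).hom z := by
        rw [ModuleCat.hom_sum, LinearMap.sum_apply]
      rw [h2]
      have h3 : (W.H.map (1 : End M).asHom).hom z = z := W.map_id_apply z
      rw [h3]
      by_cases hj : j ∈ s
      · rw [Finset.sum_eq_single_of_mem j hj]
        · rw [hxH j j z hz, if_pos rfl]
        · intro b _ hb
          rw [hxH b j z hz, if_neg (Ne.symm hb)]
      · rw [hs j hj z hz]
        simp only [map_zero, Finset.sum_const_zero]
  obtain ⟨e, he, hφe⟩ := CompleteOrthogonalIdempotents.lift_of_isNilpotent_ker φ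
    (fun y hy => hN.isNilpotent y ((mem_homIdeal y).1 ((hker y).1 hy))) hco
    (fun n => ⟨End.of (x n), rfl⟩)
  have hH : ∀ n, W.H.map (e n).asHom = W.H.map (x n) := by
    intro n
    have := congrFun hφe n
    exact (heqH _ _).1 this
  refine ⟨⟨fun n => if hn : n ∈ s then (e ⟨n, hn⟩).asHom else 0, ?_, ?_, ?_, ?_, ?_⟩⟩
  · intro n
    split_ifs with hn
    · exact he.idem ⟨n, hn⟩
    · simp
  · intro n m hnm
    split_ifs with hn hm hm
    · exact he.ortho (i := ⟨m, hm⟩) (j := ⟨n, hn⟩)
        (by intro h; exact hnm (congrArg Subtype.val h).symm)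
    all_goals simp
  · refine s.finite_toSet.subset ?_
    intro n hn
    by_contra h'
    apply hn
    simp only [Finset.mem_coe] at h'
    simp [h']
  · rw [finsum_eq_sum_of_support_subset (s := s)]
    · rw [← Finset.sum_coe_sort]
      have h1 : ∀ n : {n // n ∈ s}, (if hn : (n : ℤ) ∈ s then (e ⟨n, hn⟩).asHom else 0)
          = (e n).asHom := by
        intro n
        simp [n.2]
      simp only [h1]
      exact he.complete
    · intro n hn
      by_contra h'
      apply hn
      simp only [Finset.mem_coe] at h'
      simp [h']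
  · intro n j z hz
    by_cases hn : n ∈ s
    · rw [dif_pos hn, hH ⟨n, hn⟩, hxH n j z hz]
    · rw [dif_neg hn]
      rw [W.map_zero_apply]
      split_ifs with h
      · subst h
        exact (hs j hn z hz).symm
      · rfl

lemma kunnethHom_of_murreA {M : C} (h : MurreA W M) : KunnethHom W M := by
  obtain ⟨D⟩ := h
  intro q
  exact ⟨D.p q, fun j x hx => D.homology q j x hx⟩

end one

variable {C : Type u} [Category.{v} C] [Preadditive C] [Linear ℚ C]
  [MonoidalCategory C] [SymmetricCategory C] [MonoidalPreadditive C] [MonoidalLinear ℚ C]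
  [RigidCategory C] [HasBinaryBiproducts C] [IsIdempotentComplete C]
  {F : Type w} [Field F] {W : MotivicHomology C F}

/-! Module Lift: Chow-Künneth decompositions from Künneth projectors and nilpotence. -/

/-- lift the orthogonal idempotents modulo the nil ideal (helper15's `exists_CK_of_lift`) -/
theorem murreA_of_kunnethHom (h : NilHom W) (N : C) (hK : KunnethHom W N) : MurreA W N :=
  h.exists_CK hK

/-- the Künneth projectors of a direct summand -/
theorem KunnethHom.retract {N M : C} (R : Retract N M) (h : KunnethHom W M) :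
    KunnethHom W N := by
  intro q
  obtain ⟨θ, h1⟩ := h q
  refine ⟨R.i ≫ θ ≫ R.r, ?_⟩
  intro j x hx
  rw [W.map_comp_apply, W.map_comp_apply, h1 j _ (W.map_gr _ _ _ hx)]
  split_ifs with hj
  · rw [← W.map_comp_apply, R.retract, W.map_id_apply]
  · rw [map_zero]

/-- the Künneth projectors of `N(m)` -/
theorem KunnethHom.twist {N : C} (h : KunnethHom W N) (m : ℤ) : KunnethHom W (N ⊗ W.T m) := by
  classical
  have hadd := W.additive
  obtain ⟨s, hs⟩ := exists_degrees W N
  choose x hx using h
  have hker : ∀ n j, j ≠ n + 2 * m → ∀ z ∈ W.gr (N ⊗ W.T m) j,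
      (W.H.map (x n ▷ W.T m)).hom z = 0 := by
    intro n j hj z hz
    rw [← tensorHom_id]
    refine W.pure_of_range _ (n + 2 * m) (W.tensor_range (x n) (𝟙 _) n (2 * m) ?_ ?_) hj hz
    · apply W.range_of_pure
      intro j hj y hy
      rw [hx n j y hy, if_neg hj]
    · intro y
      exact W.map_gr _ _ _ (W.mem_gr_tate m y)
  have hsum : ∀ z : W.H.obj (N ⊗ W.T m), ∑ n ∈ s, (W.H.map (x n ▷ W.T m)).hom z = z := by
    intro z
    have h1 : W.H.map (∑ n ∈ s, x n) = W.H.map (𝟙 N) := by
      apply W.hext
      intro j y hy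
      rw [Functor.map_sum, ModuleCat.hom_sum, LinearMap.sum_apply, W.map_id_apply]
      by_cases hj : j ∈ s
      · rw [Finset.sum_eq_single_of_mem j hj]
        · rw [hx j j y hy, if_pos rfl]
        · intro b _ hb
          rw [hx b j y hy, if_neg (Ne.symm hb)]
      · rw [hs j hj y hy]
        simp only [map_zero, Finset.sum_const_zero]
    have h2 : W.H.map ((∑ n ∈ s, x n - 𝟙 N) ▷ W.T m) = 0 := by
      rw [← tensorHom_id]
      apply W.H_tensor_zero
      rw [Functor.map_sub, h1, sub_self]
    have h3 : (∑ n ∈ s, x n - 𝟙 N) ▷ W.T m = ∑ n ∈ s, x n ▷ W.T m - 𝟙 _ := by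
      have e1 : (∑ n ∈ s, x n - 𝟙 N) ▷ W.T m = (∑ n ∈ s, x n) ▷ W.T m - 𝟙 N ▷ W.T m :=
        (tensorRight (W.T m)).map_sub
      have e2 : (∑ n ∈ s, x n) ▷ W.T m = ∑ n ∈ s, x n ▷ W.T m :=
        (tensorRight (W.T m)).map_sum x s
      rw [e1, e2, id_whiskerRight]
    rw [h3, Functor.map_sub, Functor.map_sum, sub_eq_zero] at h2
    have h4 := congrArg (fun f => f.hom z) h2
    simp only [ModuleCat.hom_sum, LinearMap.sum_apply, W.map_id_apply] at h4
    exact h4
  intro q
  refine ⟨x (q - 2 * m) ▷ W.T m, ?_⟩
  intro j z hz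
  split_ifs with hj
  · subst hj
    have h1 := hsum z
    by_cases hq : j - 2 * m ∈ s
    · rw [Finset.sum_eq_single_of_mem _ hq] at h1
      · exact h1
      · intro b _ hb
        exact hker b j (by intro h; apply hb; omega) z hz
    · rw [Finset.sum_eq_zero] at h1
      · rw [← h1, map_zero]
      · intro b hb
        exact hker b j (by intro h; apply hq; rwa [show j - 2 * m = b by omega]) z hz
  · exact hker _ j (by omega) z hz

end Pool.Agent.Helper58.MAD
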