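import Pool.Agent.Helper58.MAD.Defs

open CategoryTheory MonoidalCategory Limits TensorProduct
open Pool.Agent.Helper15.Murre

universe w v u

namespace Pool.Agent.Helper58.MAD.NilAux

section one

variable {C : Type u} [Category.{v} C] [Preadditive C] [Linear ℚ C]
  [MonoidalCategory C] [SymmetricCategory C] [RigidCategory C] {F : Type w} [Field F]
variable {W : MotivicHomology C F} {M N : C}

omit [Preadditive C] [Linear ℚ C] [MonoidalCategory C] [SymmetricCategory C] [RigidCategory C] in
lemma pw_comm (f : M ⟶ M) (m : ℕ) : f ≫ pw f m = pw f (m + 1) := by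
  induction m with
  | zero => exact (Category.comp_id f).trans (Category.id_comp f).symm
  | succ m ih =>
    change f ≫ pw f m ≫ f = pw f (m + 1) ≫ f
    rw [← Category.assoc, ih]

omit [Preadditive C] [Linear ℚ C] [MonoidalCategory C] [SymmetricCategory C] [RigidCategory C] in
lemma pw_id (m : ℕ) : pw (𝟙 M) m = 𝟙 M := by
  induction m with
  | zero => rfl
  | succ m ih =>
    change pw (𝟙 M) m ≫ 𝟙 M = 𝟙 M
    rw [ih, Category.comp_id]

/-- the dual of a pure object is pure -/
lemma dual_pure {i : ℤ} (h : ∀ x : W.H.obj N, x ∈ W.gr N i) (y : W.H.obj (Nᘁ)) :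
    y ∈ W.gr (Nᘁ) (-i) := by
  have h1 := W.range_of_pure (𝟙 (Nᘁ)) (-i) (fun j hj x hx => by
    have := W.dual_range (𝟙 N) i (fun x => W.map_gr _ _ _ (h x)) hj hx
    have h3 : ((𝟙 N)ᘁ : Nᘁ ⟶ Nᘁ) = 𝟙 (Nᘁ) := by simp
    rwa [h3] at this) y
  rwa [W.map_id_apply] at h1

/-- a path of homologically trivial maps which visits a component twice is zero -/
lemma path_zero (D : CK W M)
    (hD : ∀ (i : ℤ) (g : M ⟶ M), W.H.map g = 0 → D.p i ≫ g ≫ D.p i = 0) (f : M ⟶ M)
    (hf : W.H.map f = 0) : ∀ (k : ℕ) (T : Finset ℤ), (D.s \ T).card = k → ∀ x : M ⟶ M,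
      (∀ t ∈ T, ∀ g : M ⟶ M, W.H.map g = 0 → x ≫ g ≫ D.p t = 0) →
      x ≫ pw f (k + 1) = 0 := by
  intro k
  induction k with
  | zero =>
    intro T hT x hx
    have hsub : D.s ⊆ T := by
      rw [Finset.card_eq_zero, Finset.sdiff_eq_empty_iff_subset] at hT
      exact hT
    have h1 : pw f (0 + 1) = f := by
      change 𝟙 M ≫ f = f
      rw [Category.id_comp]
    rw [h1, D.comp_left (x ≫ f)]
    apply Finset.sum_eq_zero
    intro i hi
    rw [Category.assoc]
    exact hx i (hsub hi) f hf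
  | succ k ih =>
    intro T hT x hx
    rw [← pw_comm, ← Category.assoc, D.comp_left (x ≫ f), Preadditive.sum_comp]
    apply Finset.sum_eq_zero
    intro i hi
    by_cases hiT : i ∈ T
    · rw [Category.assoc x, hx i hiT f hf, zero_comp]
    · apply ih (insert i T)
      · have h2 : D.s \ insert i T = (D.s \ T).erase i := by
          ext j
          simp only [Finset.mem_sdiff, Finset.mem_insert, Finset.mem_erase, not_or]
          tauto
        rw [h2, Finset.card_erase_of_mem (by simp [hi, hiT]), hT]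
        rfl
      · intro t ht g hg
        rw [Finset.mem_insert] at ht
        rcases ht with rfl | ht
        · have h3 := hD t g hg
          simp only [Category.assoc]
          rw [h3, comp_zero, comp_zero]
        · have h3 := hx t ht (f ≫ D.p i ≫ g) (by
            rw [Functor.map_comp, hf, zero_comp])
          simpa only [Category.assoc] using h3

end one

section two

variable {C : Type u} [Category.{v} C] [Preadditive C] [Linear ℚ C]
  [MonoidalCategory C] [SymmetricCategory C] [MonoidalPreadditive C]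
  [RigidCategory C] {F : Type w} [Field F]
variable {W : MotivicHomology C F} {M N : C}

lemma name_eq_comp (f g : M ⟶ M) : name W (f ≫ g) = name W f ≫ (g ▷ (Mᘁ)) := by
  unfold name
  simp only [comp_whiskerRight, Category.assoc]

lemma pw_whisker (f : M ⟶ M) (Z : C) (m : ℕ) : pw (f ▷ Z) m = (pw f m) ▷ Z := by
  induction m with
  | zero => exact (id_whiskerRight _ _).symm
  | succ m ih =>
    change pw (f ▷ Z) m ≫ (f ▷ Z) = (pw f m ≫ f) ▷ Z
    rw [ih, comp_whiskerRight]

lemma name_pw (f : M ⟶ M) (m : ℕ) :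
    name W f ≫ pw (f ▷ (Mᘁ)) m = name W (f ≫ pw f m) := by
  rw [pw_whisker, name_eq_comp]

/-- (D₀) for twisted objects: `CH_l(N)_hom = 0` if the homology of `N` is concentrated in degree
`2l`. -/
theorem pureD_twist (h : PureD W) (l : ℤ) (hN : ∀ x : W.H.obj N, x ∈ W.gr N (2 * l))
    (α : W.CH l N) (hα : W.H.map α = 0) : α = 0 := by
  have h2 : ∀ x : W.H.obj (N ⊗ W.T (-l)), x ∈ W.gr (N ⊗ W.T (-l)) (2 * l + 2 * (-l)) := by
    intro x
    have := W.tensor_range (𝟙 N) (𝟙 (W.T (-l))) (2 * l) (2 * (-l))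
      (fun x => W.map_gr _ _ _ (hN x)) (fun x => W.map_gr _ _ _ (W.mem_gr_tate _ x)) x
    rwa [MonoidalCategory.id_tensorHom_id, W.map_id_apply] at this
  have h3 : ∀ m : ℤ, m = 0 → ∀ β : W.CH m (N ⊗ W.T (-l)), W.H.map β = 0 → β = 0 := by
    rintro m rfl β hβ
    have h4 := h (N ⊗ W.T (-l)) (by
      rw [eq_top_iff]
      intro x _
      have := h2 x
      rwa [show 2 * l + 2 * (-l) = 0 by ring] at this)
    have h5 : β ∈ W.CHhom 0 (N ⊗ W.T (-l)) := hβ
    rw [h4] at h5
    simpa using h5
  let u : (N ⊗ W.T (-l)) ⊗ W.T l ≅ N :=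
    eqToIso (by rw [neg_neg]) ≪≫ untwist W N (-l)
  have h4 : α ≫ u.inv = 0 := by
    apply shiftCH_injective (W := W) (M := N ⊗ W.T (-l)) l l
    apply h3 _ (by ring)
    apply shiftCH_hom
    rw [Functor.map_comp, hα, zero_comp]
  have := congrArg (· ≫ u.hom) h4
  simpa using this

/-- under (D₀), a homologically trivial endomorphism has no diagonal blocks -/
lemma pureD_diag [IsIdempotentComplete C] (h : PureD W) (D : CK W M) (f : M ⟶ M) (i : ℤ)
    (hf : W.H.map f = 0) :
    D.p i ≫ f ≫ D.p i = 0 := by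
  obtain ⟨P, r, e, hre, her, hP⟩ := D.split i
  have hg : W.H.map (r ≫ f ≫ e) = 0 := by
    rw [Functor.map_comp, Functor.map_comp, hf, zero_comp, comp_zero]
  have h1 : r ≫ f ≫ e = 0 := by
    apply name_injective (W := W)
    apply pureD_twist h 0
    · intro x
      have := W.tensor_range (𝟙 P) (𝟙 (Pᘁ)) i (-i)
        (fun x => W.map_gr _ _ _ (hP x)) (fun x => W.map_gr _ _ _ (dual_pure hP x)) x
      rw [MonoidalCategory.id_tensorHom_id, W.map_id_apply] at this
      simpa using this
    · unfold name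
      have h0 : W.H.map ((r ≫ f ≫ e) ▷ (Pᘁ)) = 0 := by
        have := W.H_tensor_zero (r ≫ f ≫ e) (𝟙 (Pᘁ)) hg
        rwa [tensorHom_id] at this
      rw [Functor.map_comp, Functor.map_comp, h0, comp_zero, comp_zero]
  rw [← her]
  have h2 : (e ≫ r) ≫ f ≫ e ≫ r = e ≫ (r ≫ f ≫ e) ≫ r := by simp only [Category.assoc]
  rw [h2, h1, zero_comp, comp_zero]

end two

end Pool.Agent.Helper58.MAD.NilAux
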