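import Pool.Agent.Helper58.MAD.Defs
import Pool.Agent.Helper58.MAD.NilCore

open CategoryTheory MonoidalCategory Limits TensorProduct
open Pool.Agent.Helper15.Murre

universe w v u

namespace Pool.Agent.Helper58.MAD

open NilAux

variable {C : Type u} [Category.{v} C] [Preadditive C] [Linear ℚ C]
  [MonoidalCategory C] [SymmetricCategory C] [MonoidalPreadditive C] [MonoidalLinear ℚ C]
  [RigidCategory C] [HasBinaryBiproducts C] [IsIdempotentComplete C]
  {F : Type w} [Field F] {W : MotivicHomology C F}

/-! Module Nil: nilpotence of homologically trivial endomorphisms. -/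

/-- An object whose homology is zero is zero, if homologically trivial endomorphisms are
nilpotent (apply to the identity). -/
theorem noPhantom_of_nilHom (h : NilHom W) : NoPhantom W := by
  intro N hN
  obtain ⟨m, hm⟩ := h N (𝟙 N) (W.map_zero_of_subsingleton _ hN)
  rw [pw_id] at hm
  exact (IsZero.iff_id_eq_zero N).2 hm

/-- `θ = id`. -/
theorem pureD_of_locNil (h : LocNil W) : PureD W := by
  intro N hN
  rw [eq_bot_iff]
  intro α hα
  obtain ⟨m, hm⟩ := h N (𝟙 N) (by
    intro j hj x hx
    rw [W.map_id_apply]
    exact W.eq_zero_of_mem hj hx (by rw [hN]; trivial)) α hα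
  rw [pw_id, Category.comp_id] at hm
  simpa using hm

/-- For `x : M ⟶ M` with `H(x) = 0` let `θ = x ⊗ 1` (or `1 ⊗ x`) on `N = M ⊗ M^v` and
`α = name(x)`: `α θ^m = name(x^(m+1))`. -/
theorem nilHom_of_locNil (h : LocNil W) : NilHom W := by
  intro M f hf
  have h0 : W.H.map (f ▷ (Mᘁ)) = 0 := by
    have := W.H_tensor_zero f (𝟙 (Mᘁ)) hf
    rwa [tensorHom_id] at this
  obtain ⟨m, hm⟩ := h (M ⊗ Mᘁ) (f ▷ (Mᘁ)) (by
    intro j _ x _
    rw [h0]
    rfl) (name W f) (by
    change W.H.map (name W f) = 0
    unfold name
    rw [Functor.map_comp, Functor.map_comp, h0, comp_zero, comp_zero])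
  rw [name_pw, pw_comm] at hm
  exact ⟨m + 1, name_injective hm⟩

/-- Path argument: a path of homologically trivial maps between the components of a CK
decomposition is zero as soon as it visits a component twice. -/
theorem nilHom_of_pureD (hA : ∀ N : C, MurreA W N) (hD : PureD W) : NilHom W := by
  intro M f hf
  obtain ⟨D⟩ := hA M
  refine ⟨D.s.card + 1, ?_⟩
  rw [← Category.id_comp (pw f (D.s.card + 1))]
  apply path_zero D (fun i g hg => pureD_diag hD D g i hg) f hf D.s.card ∅ (by simp)
  intro t ht
  simp at ht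

end Pool.Agent.Helper58.MAD
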