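import Pool.Agent.Helper58.MAD.Defs
import Pool.Agent.Helper15.Murre.Kill
import Pool.Agent.Helper15.Murre.Descent

open CategoryTheory MonoidalCategory Limits TensorProduct
open Pool.Agent.Helper15.Murre

universe w v u

set_option linter.unusedSectionVars false

namespace Pool.Agent.Helper58.MAD

section graded

variable {C : Type u} [Category.{v} C] [Preadditive C] [Linear ℚ C]
  [MonoidalCategory C] [SymmetricCategory C] [RigidCategory C]
  {F : Type w} [Field F] {W : MotivicHomology C F}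

variable (W) in
/-- the projection onto `H_k(X)` -/
noncomputable def grProj (X : C) (k : ℤ) : W.H.obj X →ₗ[F] W.H.obj X :=
  (W.gr X k).subtype ∘ₗ (DirectSum.component F ℤ (fun i => W.gr X i) k) ∘ₗ
    (LinearEquiv.ofBijective (DirectSum.coeLinearMap (W.gr X)) (W.isInternal X)).symm.toLinearMap

lemma grProj_of_mem {X : C} (k j : ℤ) {x : W.H.obj X} (hx : x ∈ W.gr X j) :
    grProj W X k x = if j = k then x else 0 := by
  have h1 : (LinearEquiv.ofBijective (DirectSum.coeLinearMap (W.gr X)) (W.isInternal X)).symm x =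
      DirectSum.lof F ℤ (fun i => W.gr X i) j ⟨x, hx⟩ := by
    rw [LinearEquiv.symm_apply_eq]
    simp
  unfold grProj
  simp only [LinearMap.comp_apply, LinearEquiv.coe_coe, h1, Submodule.subtype_apply]
  rw [DirectSum.component.of]
  split_ifs with h
  · subst h; rfl
  · rfl

/-- the homogeneous elements of `H_*(M ⊗ N)` are sums of cross products of the right degrees -/
theorem gr_tensor_induction {M N : C} {k : ℤ} {P : W.H.obj (M ⊗ N) → Prop} (h0 : P 0)
    (hadd : ∀ x y, P x → P y → P (x + y))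
    (h1 : ∀ i j, i + j = k → ∀ x ∈ W.gr M i, ∀ y ∈ W.gr N j, P (W.cross x y))
    (z : W.H.obj (M ⊗ N)) (hz : z ∈ W.gr (M ⊗ N) k) : P z := by
  have key : ∀ z : W.H.obj (M ⊗ N), P (grProj W _ k z) := by
    intro z
    induction z using W.cross_induction with
    | h1 i j x hx y hy =>
      rw [grProj_of_mem k (i + j) (W.cross_mem hx hy)]
      split_ifs with h
      · exact h1 i j h x hx y hy
      · exact h0
    | h2 x y hx hy => rw [map_add]; exact hadd _ _ hx hy
  have := key z
  rwa [grProj_of_mem k k hz, if_pos rfl] at this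

/-- the homogeneous elements of `H_*(M(m))` -/
theorem gr_twist_induction {M : C} {m k : ℤ} {P : W.H.obj (M ⊗ W.T m) → Prop} (h0 : P 0)
    (hadd : ∀ x y, P x → P y → P (x + y))
    (h1 : ∀ x ∈ W.gr M (k - 2 * m), ∀ y : W.H.obj (W.T m), P (W.cross x y))
    (z : W.H.obj (M ⊗ W.T m)) (hz : z ∈ W.gr (M ⊗ W.T m) k) : P z := by
  refine gr_tensor_induction h0 hadd ?_ z hz
  intro i j hij x hx y hy
  by_cases hj : j = 2 * m
  · have : i = k - 2 * m := by omega
    subst this
    exact h1 x hx y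
  · have : y = 0 := W.eq_zero_of_mem hj hy (W.mem_gr_tate m y)
    rw [this, W.cross_zero_right]
    exact h0

theorem map_whisker_eq {M N : C} (f g : M ⟶ N) (m j : ℤ)
    (h : ∀ x ∈ W.gr M (j - 2 * m), (W.H.map f).hom x = (W.H.map g).hom x)
    (z : W.H.obj (M ⊗ W.T m)) (hz : z ∈ W.gr (M ⊗ W.T m) j) :
    (W.H.map (f ▷ W.T m)).hom z = (W.H.map (g ▷ W.T m)).hom z := by
  refine gr_twist_induction (P := fun z => (W.H.map (f ▷ W.T m)).hom z =
    (W.H.map (g ▷ W.T m)).hom z) (by rw [map_zero, map_zero]) ?_ ?_ z hz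
  · intro x y hx hy
    rw [map_add, map_add, hx, hy]
  · intro x hx y
    rw [W.map_whiskerRight_cross, W.map_whiskerRight_cross, h x hx]

theorem map_whisker_zero {M N : C} (f : M ⟶ N) (m j : ℤ)
    (h : ∀ x ∈ W.gr M (j - 2 * m), (W.H.map f).hom x = 0)
    (z : W.H.obj (M ⊗ W.T m)) (hz : z ∈ W.gr (M ⊗ W.T m) j) :
    (W.H.map (f ▷ W.T m)).hom z = 0 := by
  refine gr_twist_induction (P := fun z => (W.H.map (f ▷ W.T m)).hom z = 0) (map_zero _) ?_ ?_ z hz
  · intro x y hx hy
    rw [map_add, hx, hy, add_zero]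
  · intro x hx y
    rw [W.map_whiskerRight_cross, h x hx, W.cross_zero_left]

theorem map_whisker_one {M : C} (f : M ⟶ M) (m j : ℤ)
    (h : ∀ x ∈ W.gr M (j - 2 * m), (W.H.map f).hom x = x)
    (z : W.H.obj (M ⊗ W.T m)) (hz : z ∈ W.gr (M ⊗ W.T m) j) :
    (W.H.map (f ▷ W.T m)).hom z = z := by
  have := map_whisker_eq f (𝟙 M) m j (fun x hx => by rw [h x hx, W.map_id_apply]) z hz
  rwa [id_whiskerRight, W.map_id_apply] at this

end graded

section pow

variable {C : Type u} [Category.{v} C]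

/-- `u a = a v` implies `u^m a = a v^m` -/
theorem pw_comp {M N : C} {u : M ⟶ M} {v : N ⟶ N} {a : M ⟶ N} (h : u ≫ a = a ≫ v) (m : ℕ) :
    pw u m ≫ a = a ≫ pw v m := by
  induction m with
  | zero => simp [pw]
  | succ m ih =>
    change (pw u m ≫ u) ≫ a = a ≫ (pw v m ≫ v)
    rw [Category.assoc, h, ← Category.assoc, ih, Category.assoc]

theorem pw_add {N : C} (u : N ⟶ N) (m k : ℕ) : pw u (m + k) = pw u m ≫ pw u k := by
  induction k with
  | zero => simp [pw]
  | succ k ih =>
    change pw u (m + k) ≫ u = pw u m ≫ (pw u k ≫ u)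
    rw [ih, Category.assoc]

theorem pw_map {D : Type*} [Category D] (Φ : C ⥤ D) {N : C} (u : N ⟶ N) (m : ℕ) :
    Φ.map (pw u m) = pw (Φ.map u) m := by
  induction m with
  | zero => exact Φ.map_id N
  | succ m ih =>
    change Φ.map (pw u m ≫ u) = pw (Φ.map u) m ≫ Φ.map u
    rw [Φ.map_comp, ih]

theorem pw_eq_pow {N : C} (u : End N) (m : ℕ) : (pw u m : End N) = u ^ m := by
  induction m with
  | zero => rfl
  | succ m ih =>
    rw [pow_succ', ← ih]
    rfl

end pow

variable {C : Type u} [Category.{v} C] [Preadditive C] [Linear ℚ C]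
  [MonoidalCategory C] [SymmetricCategory C] [MonoidalPreadditive C] [MonoidalLinear ℚ C]
  [RigidCategory C] [HasBinaryBiproducts C] [IsIdempotentComplete C]
  {F : Type w} [Field F] {W : MotivicHomology C F}
variable {C' : Type u} [Category.{v} C'] [Preadditive C'] [Linear ℚ C']
  [MonoidalCategory C'] [SymmetricCategory C'] [MonoidalPreadditive C'] [MonoidalLinear ℚ C']
  [RigidCategory C'] [HasBinaryBiproducts C'] [IsIdempotentComplete C']
  {W' : MotivicHomology C' F} {Φ : C ⥤ C'}

/-! Module Basic: truncation idempotents, good objects. -/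

theorem map_sum_apply {M N : C} {ι : Type*} (s : Finset ι) (f : ι → (M ⟶ N)) (x : W.H.obj M) :
    (W.H.map (∑ i ∈ s, f i)).hom x = ∑ i ∈ s, (W.H.map (f i)).hom x := by
  classical
  induction s using Finset.induction_on with
  | empty => simp [W.map_zero_apply]
  | insert a s ha ih => rw [Finset.sum_insert ha, Finset.sum_insert ha, W.map_add_apply, ih]

/-- partial sums of a CK decomposition -/
theorem sum_p_idem {N : C} (D : CK W N) (s : Finset ℤ) :
    (∑ i ∈ s, D.p i) ≫ (∑ i ∈ s, D.p i) = ∑ i ∈ s, D.p i := by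
  classical
  rw [Preadditive.sum_comp]
  apply Finset.sum_congr rfl
  intro i hi
  rw [Preadditive.comp_sum, Finset.sum_eq_single_of_mem i hi]
  · exact D.idem i
  · intro j _ hj
    exact D.orth i j (Ne.symm hj)

theorem sum_p_apply {N : C} (D : CK W N) (s : Finset ℤ) (j : ℤ) (x : W.H.obj N)
    (hx : x ∈ W.gr N j) : (W.H.map (∑ i ∈ s, D.p i)).hom x = if j ∈ s then x else 0 := by
  classical
  rw [map_sum_apply]
  split_ifs with h
  · rw [Finset.sum_eq_single_of_mem j h]
    · rw [D.homology j j x hx, if_pos rfl]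
    · intro i _ hi
      rw [D.homology i j x hx, if_neg (Ne.symm hi)]
  · apply Finset.sum_eq_zero
    intro i hi
    rw [D.homology i j x hx, if_neg]
    rintro rfl
    exact h hi

/-- if `j` is not an index then `H_j(N) = 0` -/
theorem eq_zero_of_not_mem_s {N : C} (D : CK W N) {j : ℤ} (hj : j ∉ D.s) {x : W.H.obj N}
    (hx : x ∈ W.gr N j) : x = 0 := by
  have h := sum_p_apply D D.s j x hx
  rw [D.sum_s, W.map_id_apply, if_neg hj] at h
  exact h

/-- truncation idempotents from a CK decomposition -/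
theorem exists_trunc {N : C} (hA : MurreA W N) (r : ℤ) : ∃ w : N ⟶ N, IsTrunc W w r := by
  classical
  obtain ⟨D⟩ := hA
  refine ⟨∑ i ∈ D.s.filter (fun i => r ≤ i), D.p i, sum_p_idem D _, ?_, ?_⟩
  · intro j hj x hx
    rw [sum_p_apply D _ j x hx]
    split_ifs with h
    · rfl
    · have : j ∉ D.s := fun h' => h (by simp [h', hj])
      exact (eq_zero_of_not_mem_s D this hx).symm
  · intro j hj x hx
    rw [sum_p_apply D _ j x hx, if_neg]
    intro h
    simp at h
    omega

/-- the unipotence trick: if every `y` in a class `S` of morphisms `A ⟶ N` stable under `1 - u`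
satisfies `y t = y`, and `t u t` acts on homology as `t`, then `y (1 - u)^m = 0` for some `m`. -/
theorem unip (h : NilHom W) {A N : C} (S : Set (A ⟶ N)) (t u : N ⟶ N) (ht : t ≫ t = t)
    (hS : ∀ y ∈ S, y ≫ (𝟙 N - u) ∈ S) (hS' : ∀ y ∈ S, y ≫ t = y)
    (hu : W.H.map (t ≫ u ≫ t) = W.H.map t) : ∃ m : ℕ, ∀ y ∈ S, y ≫ pw (𝟙 N - u) m = 0 := by
  have hadd := W.additive
  obtain ⟨m, hm⟩ := h N (t - t ≫ u ≫ t) (by rw [Functor.map_sub, hu, sub_self])
  refine ⟨m, ?_⟩
  have key : ∀ i : ℕ, ∀ y ∈ S, y ≫ pw (𝟙 N - u) i ∈ S ∧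
      y ≫ pw (𝟙 N - u) i = y ≫ pw (t - t ≫ u ≫ t) i := by
    intro i
    induction i with
    | zero => intro y hy; simp [pw, hy]
    | succ i ih =>
      intro y hy
      obtain ⟨h1, h2⟩ := ih y hy
      have h3 : y ≫ pw (𝟙 N - u) (i + 1) = (y ≫ pw (𝟙 N - u) i) ≫ (𝟙 N - u) := by
        change y ≫ (pw (𝟙 N - u) i ≫ (𝟙 N - u)) = _
        rw [Category.assoc]
      have h4 : y ≫ pw (t - t ≫ u ≫ t) (i + 1) =
          (y ≫ pw (t - t ≫ u ≫ t) i) ≫ (t - t ≫ u ≫ t) := by
        change y ≫ (pw _ i ≫ _) = _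
        rw [Category.assoc]
      have h5 := hS _ h1
      refine ⟨by rw [h3]; exact h5, ?_⟩
      rw [h3, h4, ← h2]
      have h6 := hS' _ h5
      have h7 := hS' _ h1
      set z := y ≫ pw (𝟙 N - u) i with hz
      rw [← h6]
      conv_lhs => rw [← h7]
      simp only [Preadditive.comp_sub, Preadditive.sub_comp, Category.assoc, Category.comp_id, ht]
  intro y hy
  rw [(key m y hy).2, hm, comp_zero]

theorem Good.kill {N : C} (h : Good W N) {f : N ⟶ N} (hf : f ≫ f = f) (l : ℤ)
    (hf0 : ∀ j, 2 * l < j → ∀ x ∈ W.gr N j, (W.H.map f).hom x = 0) {A : C} (e : W.T l ≅ A)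
    (α : A ⟶ N) (hα : W.H.map (α ≫ f) = 0) : α ≫ f = 0 := by
  have h1 := h f hf l hf0 (e.hom ≫ α) (by
    rw [Category.assoc, Functor.map_comp, hα, comp_zero])
  have h2 := congrArg (e.inv ≫ ·) h1
  simpa using h2

theorem Good.retract {N M : C} (R : Retract N M) (h : Good W M) : Good W N := by
  intro f hf l hf0 α hα
  have h1 := h (R.r ≫ f ≫ R.i) (by
    simp only [Category.assoc]
    rw [R.retract_assoc, reassoc_of% hf]) l (by
      intro j hj x hx
      simp only [W.map_comp_apply]
      rw [hf0 j hj _ (W.map_gr _ _ _ hx), map_zero]) (α ≫ R.i) (by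
        have : (α ≫ R.i) ≫ R.r ≫ f ≫ R.i = (α ≫ f) ≫ R.i := by
          simp only [Category.assoc]
          rw [R.retract_assoc]
        rw [this, Functor.map_comp, hα, zero_comp])
  have h2 := congrArg (· ≫ R.r) h1
  simp only [Category.assoc, R.retract, zero_comp, Category.comp_id] at h2
  rwa [R.retract_assoc] at h2

theorem Good.ofIso {N M : C} (e : N ≅ M) (h : Good W M) : Good W N :=
  h.retract (Retract.ofIso e)

theorem Good.twist {N : C} (h : Good W N) (m : ℤ) : Good W (N ⊗ W.T m) := by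
  intro f hf l hf0 α hα
  apply shiftCH_injective
  have h0 : shiftCH W l m (α ≫ f) =
      shiftCH W l m α ≫ ((untwist W N m).inv ≫ (f ▷ W.T (-m)) ≫ (untwist W N m).hom) := by
    unfold shiftCH
    simp
  rw [h0]
  refine h _ ?_ (l - m) ?_ _ ?_
  · simp only [Category.assoc, Iso.hom_inv_id_assoc]
    rw [← comp_whiskerRight_assoc, hf]
  · intro j hj x hx
    simp only [W.map_comp_apply]
    rw [map_whisker_zero f (-m) j ?_ _ (W.map_gr _ _ _ hx), map_zero]
    intro y hy
    exact hf0 _ (by omega) y hy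
  · rw [← h0]
    exact shiftCH_hom l m _ hα

theorem Good.baseChange (B : BaseChange W W' Φ) {N : C} (h : Good W' (Φ.obj N)) : Good W N := by
  have hadd := B.additive
  have hfaith := B.faithful
  intro f hf l hf0 α hα
  apply Φ.map_injective
  rw [Φ.map_zero, Φ.map_comp]
  refine h.kill (by rw [← Φ.map_comp, hf]) l ?_ (B.tate l) (Φ.map α) ?_
  · intro j hj x hx
    obtain ⟨y, rfl⟩ := (B.comp N).surjective x
    rw [← B.comp_gr] at hx
    rw [← B.comp_nat, hf0 j hj y hx, map_zero]
  · rw [← Φ.map_comp]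
    ext x
    obtain ⟨y, rfl⟩ := (B.comp _).surjective x
    rw [← B.comp_nat, hα]
    simp

theorem Good.murreB {N : C} (h : Good W N) (D : CK W N) : D.MurreB := by
  rw [CK.MurreB_iff]
  intro l i hi α
  apply h (D.p i) (D.idem i) l
  · intro j hj x hx
    rw [D.homology i j x hx, if_neg (by omega)]
  · ext x
    rw [W.map_comp_apply, D.homology i (2 * l) _ (W.map_gr _ _ _ (W.mem_gr_tate l x)),
      if_neg (by omega)]
    rfl

/-- (D) for pure objects, in all degrees -/
theorem pureD_vanish (hD : PureD W) {P : C} (l : ℤ) (hP : ∀ x : W.H.obj P, x ∈ W.gr P (2 * l))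
    (α : W.CH l P) (hα : W.H.map α = 0) : α = 0 := by
  have h2 : ∀ x : W.H.obj (P ⊗ W.T (-l)), x ∈ W.gr (P ⊗ W.T (-l)) 0 := by
    intro x
    have := W.tensor_range (𝟙 P) (𝟙 (W.T (-l))) (2 * l) (2 * (-l))
      (fun x => W.map_gr _ _ _ (hP x)) (fun x => W.map_gr _ _ _ (W.mem_gr_tate _ x)) x
    rw [MonoidalCategory.id_tensorHom_id, W.map_id_apply] at this
    have h : 2 * l + 2 * (-l) = 0 := by ring
    rwa [h] at this
  have h3 : ∀ m : ℤ, m = 0 → ∀ β : W.CH m (P ⊗ W.T (-l)), W.H.map β = 0 → β = 0 := by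
    rintro m rfl β hβ
    have h4 := hD (P ⊗ W.T (-l)) (by
      rw [eq_top_iff]
      intro x _
      exact h2 x)
    have h5 : β ∈ W.CHhom 0 (P ⊗ W.T (-l)) := hβ
    rw [h4] at h5
    simpa using h5
  let u : (P ⊗ W.T (-l)) ⊗ W.T l ≅ P :=
    eqToIso (by rw [neg_neg]) ≪≫ untwist W P (-l)
  have h4 : α ≫ u.inv = 0 := by
    apply shiftCH_injective (W := W) (M := P ⊗ W.T (-l)) l l
    apply h3 _ (by ring)
    apply shiftCH_hom
    rw [Functor.map_comp, hα, zero_comp]
  have := congrArg (· ≫ u.hom) h4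
  simpa using this

/-- it is enough to treat the summands of weights `< 2l`, since (D) takes care of the weight
`2l` (decompose the image of `f` by (A)) -/
theorem good_of_lt (hA : ∀ N : C, MurreA W N) (hD : PureD W) (hN : NoPhantom W) {N : C}
    (h : ∀ f : N ⟶ N, f ≫ f = f → ∀ l : ℤ,
      (∀ j, 2 * l ≤ j → ∀ x ∈ W.gr N j, (W.H.map f).hom x = 0) →
      ∀ α : W.CH l N, α ≫ f = 0) : Good W N := by
  classical
  intro f hf l hf0 α hα
  obtain ⟨P, i, e, hie, hei⟩ := IsIdempotentComplete.idempotents_split N f hf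
  obtain ⟨D⟩ := hA P
  have hei' : e ≫ i = f := hei
  have hgr : ∀ j, 2 * l < j → ∀ x ∈ W.gr P j, x = 0 := by
    intro j hj x hx
    have h1 : (W.H.map (i ≫ f ≫ e)).hom x = x := by
      rw [← hei']
      simp only [Category.assoc]
      rw [reassoc_of% hie, hie, W.map_id_apply]
    rw [← h1]
    simp only [W.map_comp_apply]
    rw [hf0 j hj _ (W.map_gr _ _ _ hx), map_zero]
  have key : ∀ q : ℤ, (α ≫ e) ≫ D.p q = 0 := by
    intro q
    rcases lt_trichotomy q (2 * l) with hq | hq | hq
    · have h1 := h (e ≫ D.p q ≫ i) (by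
        simp only [Category.assoc]
        rw [reassoc_of% hie]
        rw [← Category.assoc (D.p q), D.idem]) l (by
          intro j hj x hx
          simp only [W.map_comp_apply]
          rw [D.homology q j _ (W.map_gr _ _ _ hx), if_neg (by omega), map_zero]) α
      have h2 := congrArg (· ≫ e) h1
      simp only [Category.assoc, hie, Category.comp_id, zero_comp] at h2
      rw [Category.assoc, h2]
    · obtain ⟨Q, a, b, hab, hba, hQ⟩ := D.split q
      rw [← hba, ← Category.assoc]
      have h3 : W.H.map ((α ≫ e) ≫ b) = 0 := by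
        have : (α ≫ e) ≫ b = (α ≫ f) ≫ e ≫ b := by
          rw [← hei']
          simp only [Category.assoc]
          rw [reassoc_of% hie]
        rw [this, Functor.map_comp, hα, zero_comp]
      have h4 := pureD_vanish hD l (by rw [← hq]; exact hQ) ((α ≫ e) ≫ b) h3
      rw [h4, zero_comp]
    · have h1 : D.p q = 0 := by
        apply hN.idem _ (D.idem q)
        apply W.hext
        intro j x hx
        rw [D.homology q j x hx]
        split_ifs with hj
        · rw [hgr j (by omega) x hx]; simp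
        · rfl
      rw [h1, comp_zero]
  have h5 : α ≫ e = 0 := by
    apply D.ext_comp
    intro q
    rw [key q, zero_comp]
  rw [← hei', ← Category.assoc, h5, zero_comp]

end Pool.Agent.Helper58.MAD
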