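import Pool.Agent.Helper58.MAD.Defs
import Pool.Agent.Helper58.MAD.NilCore
import Pool.Agent.Helper58.MAD.Lift
import Pool.Agent.Helper15.Murre.TensorComp

open CategoryTheory MonoidalCategory Limits TensorProduct
open Pool.Agent.Helper15.Murre

universe w v u

namespace Pool.Agent.Helper58.MAD

open NilAux

section two

variable {C : Type u} [Category.{v} C] [Preadditive C] [Linear ℚ C]
  [MonoidalCategory C] [SymmetricCategory C] [MonoidalPreadditive C]
  [RigidCategory C] {F : Type w} [Field F]
variable {W : MotivicHomology C F} {M N : C}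

/-- if (B) and (D) hold for all decompositions, a homologically trivial endomorphism `f` has no
components `M_i ⟶ M_j` with `j ≤ i` -/
lemma block_zero (h : ∀ (M : C) (D : CK W M), D.MurreB ∧ D.MurreD) (D : CK W M) (f : M ⟶ M)
    (i j : ℤ) (hij : j ≤ i) (hf : W.H.map (D.p i ≫ f ≫ D.p j) = 0) :
    D.p i ≫ f ≫ D.p j = 0 := by
  apply name_injective (W := W)
  set β := name W (D.p i ≫ f ≫ D.p j) with hβ
  have h1 : β ≫ (D.p j ⊗ₘ (D.dual).p (-i)) = β := by
    have h2 : (D.dual).p (-i) = (D.p i)ᘁ := by
      change (D.p (-(-i)))ᘁ = _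
      rw [neg_neg]
    rw [h2, hβ, name_comp]
    congr 1
    simp only [Category.assoc]
    rw [D.idem, ← Category.assoc (D.p i), D.idem]
  have h3 : β ≫ (D.tensor D.dual).p (j - i) = β := by
    rw [← h1, Category.assoc, D.pure_comp_tensor, if_pos (by ring)]
  have hβ0 : W.H.map β = 0 := by
    have h0 : W.H.map ((D.p i ≫ f ≫ D.p j) ▷ (Mᘁ)) = 0 := by
      have := W.H_tensor_zero (D.p i ≫ f ≫ D.p j) (𝟙 (Mᘁ)) hf
      rwa [tensorHom_id] at this
    rw [hβ]
    unfold name
    rw [Functor.map_comp, Functor.map_comp, h0, comp_zero, comp_zero]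
  obtain ⟨hB, hD⟩ := h _ (D.tensor D.dual)
  rcases lt_or_eq_of_le hij with hlt | heq
  · rw [CK.MurreB_iff] at hB
    rw [← h3]
    exact hB 0 (j - i) (by omega) β
  · rw [CK.MurreD_iff] at hD
    apply hD 0 β _ hβ0
    rw [mul_zero]
    rw [heq, sub_self] at h3
    exact h3

/-- Murre's conjectures imply (D*). -/
theorem locNil_of_murreBD (hA : ∀ M : C, MurreA W M)
    (h : ∀ (M : C) (D : CK W M), D.MurreB ∧ D.MurreD) : LocNil W := by
  intro N θ hθ α hα
  obtain ⟨D⟩ := hA N
  have hadd := W.additive
  have h1 : ∀ i j : ℤ, 0 < i → j ≤ i → D.p i ≫ θ ≫ D.p j = 0 := by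
    intro i j hi hij
    apply block_zero h D θ i j hij
    ext x
    change (W.H.map (D.p i ≫ θ ≫ D.p j)).hom x = 0
    have h2 : (W.H.map (D.p i)).hom x ∈ W.gr N i := by
      refine W.range_of_pure (D.p i) i ?_ x
      intro k hk y hy
      rw [D.homology i k y hy, if_neg hk]
    rw [W.map_comp_apply, W.map_comp_apply, hθ i (by omega) _ h2, map_zero]
  have h2 : ∀ m : ℕ, ∀ j : ℤ, j ≤ m → α ≫ pw θ m ≫ D.p j = 0 := by
    intro m
    induction m with
    | zero =>
      intro j hj
      change α ≫ 𝟙 N ≫ D.p j = 0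
      rw [Category.id_comp]
      obtain ⟨hB, hD⟩ := h N D
      rcases lt_or_eq_of_le hj with hlt | heq
      · rw [CK.MurreB_iff] at hB
        exact hB 0 j (by simpa using hlt) α
      · rw [CK.MurreD_iff] at hD
        simp only [Nat.cast_zero] at heq
        subst heq
        apply hD 0 (α ≫ D.p 0)
        · rw [mul_zero, Category.assoc, D.idem]
        · rw [Functor.map_comp]
          have : W.H.map α = 0 := hα
          rw [this, zero_comp]
    | succ m ih =>
      intro j hj
      change α ≫ (pw θ m ≫ θ) ≫ D.p j = 0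
      have h3 : α ≫ (pw θ m ≫ θ) ≫ D.p j = (α ≫ pw θ m) ≫ (θ ≫ D.p j) := by
        simp only [Category.assoc]
      rw [h3, D.comp_left (α ≫ pw θ m), Preadditive.sum_comp]
      apply Finset.sum_eq_zero
      intro i _
      by_cases hi : i ≤ m
      · have := ih i hi
        rw [Category.assoc α, this, zero_comp]
      · have := h1 i j (by omega) (by push_cast at hj; omega)
        rw [Category.assoc (α ≫ pw θ m), this, comp_zero]
  obtain ⟨A, B, hAB⟩ := D.exists_bounds
  refine ⟨B.toNat, ?_⟩
  rw [D.comp_left (α ≫ pw θ B.toNat)]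
  apply Finset.sum_eq_zero
  intro j hj
  by_cases hp : D.p j = 0
  · rw [hp, comp_zero]
  · rw [Category.assoc]
    apply h2
    have := hAB j hp
    have := Int.self_le_toNat B
    omega

end two

variable {C : Type u} [Category.{v} C] [Preadditive C] [Linear ℚ C]
  [MonoidalCategory C] [SymmetricCategory C] [MonoidalPreadditive C] [MonoidalLinear ℚ C]
  [RigidCategory C] [HasBinaryBiproducts C] [IsIdempotentComplete C]
  {F : Type w} [Field F] {W : MotivicHomology C F}

/-! Module Conv: consequences of Murre's conjectures. -/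

/-- the conjectures for all objects -/
def MurreAll (W : MotivicHomology C F) : Prop :=
  ∀ M : C, MurreA W M ∧ MurreC W M ∧ ∃ D : CK W M, D.MurreB ∧ D.MurreD

theorem weightVanishing_of_murreAll (h : MurreAll W) : WeightVanishing W := by
  have hB : ∀ (M : C) (D : CK W M), D.MurreB := fun M D =>
    murreB_of_murreC (fun M => (h M).2.1) D
  have hph : NoPhantom W := fun N hN =>
    (IsZero.iff_id_eq_zero N).2 (id_eq_zero_of_murreB hB N hN)
  intro N w hw hN
  obtain ⟨D, hDB, hDD⟩ := (h N).2.2
  have h1 : ∀ x : W.H.obj N, x ∈ W.gr N w := by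
    intro x
    rw [hN]; trivial
  have h2 := hph.pure_id D w h1
  rw [eq_bot_iff]
  intro α hα
  rcases lt_or_eq_of_le hw with hlt | rfl
  · rw [CK.MurreB_iff] at hDB
    have := hDB 0 w (by omega) α
    rw [h2, Category.comp_id] at this
    simpa using this
  · rw [CK.MurreD_iff] at hDD
    have := hDD 0 α (by rw [mul_zero, h2, Category.comp_id]) hα
    simpa using this

/-- (D) for every CK decomposition: no phantoms by (C) (library: `murreB_of_murreC`,
`id_eq_zero_of_murreB`, `NoPhantom.pure_id`), so `CH_0(N)_hom = 0` for `N` pure of weight `0`. -/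
theorem pureD_of_murreAll (h : MurreAll W) : PureD W := fun N hN =>
  weightVanishing_of_murreAll h N 0 le_rfl hN

theorem murreD_of_pureD (h : PureD W) {M : C} (D : CK W M) : D.MurreD := by
  rw [CK.MurreD_iff]
  intro l α h1 h2
  obtain ⟨P, f, e, hfe, hef, hP⟩ := D.split (2 * l)
  have h3 : α ≫ e = 0 := by
    apply pureD_twist h l hP
    rw [Functor.map_comp, h2, zero_comp]
  rw [← h1, ← hef, ← Category.assoc, h3, zero_comp]

theorem pureD_of_murreD (h : ∀ (M : C) (D : CK W M), D.MurreD) : PureD W := by
  intro N hN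
  have h1 : ∀ x : W.H.obj N, x ∈ W.gr N 0 := by
    intro x
    rw [hN]; trivial
  have h2 := h N (CK.single N 0 h1)
  rw [CK.MurreD_iff] at h2
  rw [eq_bot_iff]
  intro α hα
  have := h2 0 α (by rw [mul_zero, CK.single_p, Category.comp_id]) hα
  simpa using this

/-- (D*): `θ` strictly raises the weights on `CH_0(N)_hom = ∑_{i > 0} CH_0(N_i)`. -/
theorem locNil_of_murreAll (h : MurreAll W) : LocNil W :=
  locNil_of_murreBD (fun M => (h M).1) (fun _ D =>
    ⟨(weightVanishing_of_murreAll h).murreB D, (weightVanishing_of_murreAll h).murreD D⟩)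

theorem signConj_of_murreA {N : C} (h : MurreA W N) : SignConj W N := by
  classical
  obtain ⟨D⟩ := h
  have hadd := W.additive
  refine ⟨∑ i ∈ D.s.filter Even, D.p i, ?_⟩
  intro j x hx
  rw [Functor.map_sum, ModuleCat.hom_sum, LinearMap.sum_apply]
  by_cases hj : Even j
  · rw [if_pos hj]
    by_cases hs : j ∈ D.s
    · rw [Finset.sum_eq_single_of_mem j (by simp [hs, hj])]
      · rw [D.homology j j x hx, if_pos rfl]
      · intro b _ hb
        rw [D.homology b j x hx, if_neg (Ne.symm hb)]
    · have h0 : x = 0 := by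
        have := D.homology j j x hx
        rw [if_pos rfl, D.p_eq_zero hs, W.map_zero_apply] at this
        exact this.symm
      rw [h0]
      simp only [map_zero, Finset.sum_const_zero]
  · rw [if_neg hj]
    apply Finset.sum_eq_zero
    intro b hb
    simp only [Finset.mem_filter] at hb
    rw [D.homology b j x hx, if_neg (by rintro rfl; exact hj hb.2)]

end Pool.Agent.Helper58.MAD
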