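import Mathlib
import Pool.Agent.Helper15.Murre.Global
import Pool.Agent.Helper15.Murre.BC

/-!
# Murre's conjectures (B) and (C) follow from (A) and (D): definitions

The setting: the Chow motives over all fields `k` (of one characteristic), with a Weil homology,
base change functors, and the classical facts about the hyperplane sections of a smooth projective
variety (weak and hard Lefschetz theorems, generic hyperplane section, Lefschetz pencils).
-/

open CategoryTheory MonoidalCategory Limits TensorProduct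
open Pool.Agent.Helper15.Murre

universe w v u

namespace Pool.Agent.Helper58.MAD

section one

variable {C : Type u} [Category.{v} C] [Preadditive C] [Linear ℚ C]
  [MonoidalCategory C] [SymmetricCategory C] [RigidCategory C] {F : Type w} [Field F]

/-- `f : M ⟶ N` is injective on `H_j`. -/
def InjH (W : MotivicHomology C F) {M N : C} (f : M ⟶ N) (j : ℤ) : Prop :=
  ∀ x ∈ W.gr M j, (W.H.map f).hom x = 0 → x = 0

/-- `f : M ⟶ N` is surjective on `H_j`. -/
def SurjH (W : MotivicHomology C F) {M N : C} (f : M ⟶ N) (j : ℤ) : Prop :=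
  ∀ y ∈ W.gr N j, ∃ x ∈ W.gr M j, (W.H.map f).hom x = y

/-- (D) for the motives which are pure of weight `0`: if `H_*(N) = H_0(N)` then
`CH_0(N)_hom = 0`. -/
def PureD (W : MotivicHomology C F) : Prop :=
  ∀ N : C, W.gr N 0 = ⊤ → W.CHhom 0 N = ⊥

/-- the iterates of an endomorphism -/
def pw {C : Type u} [Category.{v} C] {N : C} (u : N ⟶ N) : ℕ → (N ⟶ N)
  | 0 => 𝟙 N
  | m + 1 => pw u m ≫ u

/-- (D*): if `θ : N ⟶ N` is zero on `H_j(N)` for all `j ≠ 0`, then `θ` is locally nilpotent on
`CH_0(N)_hom`. -/
def LocNil (W : MotivicHomology C F) : Prop :=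
  ∀ (N : C) (θ : N ⟶ N), (∀ j, j ≠ 0 → ∀ x ∈ W.gr N j, (W.H.map θ).hom x = 0) →
    ∀ α ∈ W.CHhom 0 N, ∃ m : ℕ, α ≫ pw θ m = 0

/-- homologically trivial endomorphisms are nilpotent -/
def NilHom (W : MotivicHomology C F) : Prop :=
  ∀ (N : C) (x : N ⟶ N), W.H.map x = 0 → ∃ m : ℕ, pw x m = 0

/-- The Künneth conjecture for `N`: all the projectors onto `H_i(N)` are algebraic. -/
def KunnethHom (W : MotivicHomology C F) (N : C) : Prop :=
  ∀ i, ∃ p : N ⟶ N, ∀ j, ∀ x ∈ W.gr N j, (W.H.map p).hom x = if j = i then x else 0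

/-- The sign conjecture for `N`: the projector onto the even homology is algebraic. -/
def SignConj (W : MotivicHomology C F) (N : C) : Prop :=
  ∃ p : N ⟶ N, ∀ j, ∀ x ∈ W.gr N j, (W.H.map p).hom x = if Even j then x else 0

/-- `N` is good: for every direct summand `P` of `N` (the image of an idempotent `f`) and every
`l` such that the weights of `P` are `≤ 2l`, `CH_l(P)_hom = 0`. -/
def Good (W : MotivicHomology C F) (N : C) : Prop :=
  ∀ f : N ⟶ N, f ≫ f = f → ∀ l : ℤ,
    (∀ j, 2 * l < j → ∀ x ∈ W.gr N j, (W.H.map f).hom x = 0) →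
    ∀ α : W.CH l N, W.H.map (α ≫ f) = 0 → α ≫ f = 0

/-- `w` is an idempotent which acts on homology as the projector onto `⊕_{j ≥ r} H_j(N)`. -/
structure IsTrunc (W : MotivicHomology C F) {N : C} (w : N ⟶ N) (r : ℤ) : Prop where
  idem : w ≫ w = w
  one : ∀ j, r ≤ j → ∀ x ∈ W.gr N j, (W.H.map w).hom x = x
  zero : ∀ j, j < r → ∀ x ∈ W.gr N j, (W.H.map w).hom x = 0

variable (W : MotivicHomology C F) in
/-- The Lefschetz operator `L ⊗ 1 + 1 ⊗ L` of the product polarisation on `Y × Y`, for
`N = h(Y)` and `L : h(Y) ⟶ h(Y)(1)`. -/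
def squareL {N : C} (L : N ⟶ N ⊗ W.T 1) : N ⊗ N ⟶ (N ⊗ N) ⊗ W.T 1 :=
  (L ▷ N) ≫ (α_ N (W.T 1) N).hom ≫ (N ◁ (β_ (W.T 1) N).hom) ≫ (α_ N N (W.T 1)).inv +
    (N ◁ L) ≫ (α_ N N (W.T 1)).inv

/-- A member `V` of a pencil of hyperplane sections of `Y`, `N = h(Y)`, `n = dim Y`,
`L : h(Y) ⟶ h(Y)(1)` the intersection with a hyperplane: either a smooth member, or the resolution
of a member with one node, obtained by blowing up the node. `a` is the push-forward
`h(V) ⟶ h(Y)`, `b` the pull-back `h(Y) ⟶ h(V)(1)`, and `e` acts on `H_j(V)`, `j > n`, as the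
projector onto the classes supported on the exceptional quadric (`e = 0` if `V` is a smooth
member); these classes die in `h(Y)`. -/
structure Member (W : MotivicHomology C F) (N : C) (n : ℤ) (L : N ⟶ N ⊗ W.T 1) (V : C) where
  /-- push-forward -/
  a : V ⟶ N
  /-- pull-back -/
  b : N ⟶ V ⊗ W.T 1
  /-- projection formula -/
  b_a : b ≫ (a ▷ W.T 1) = L
  /-- the projector onto the classes supported on the exceptional quadric -/
  e : V ⟶ V
  /-- the exceptional quadric is contracted to a point of `Y` -/
  e_a : e ≫ a = 0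
  /-- weak Lefschetz theorem: `H_j(V)`, `j > n`, is generated by the pull-back of `H_(j+2)(Y)`
  and the classes supported on the exceptional quadric -/
  split : ∀ j, n + 2 < j → ∀ x ∈ W.gr (V ⊗ W.T 1) j, ∃ y ∈ W.gr N j,
    x = (W.H.map b).hom y + (W.H.map (e ▷ W.T 1)).hom x

end one

section two

variable {C : Type u} [Category.{v} C] [Preadditive C] [Linear ℚ C]
  [MonoidalCategory C] [SymmetricCategory C] [RigidCategory C] {F : Type w} [Field F]
  {C' : Type u} [Category.{v} C'] [Preadditive C'] [Linear ℚ C']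
  [MonoidalCategory C'] [SymmetricCategory C'] [RigidCategory C']

/-- `f : M ⟶ N` has a nonzero kernel on `H_j`. -/
def KerH (W : MotivicHomology C F) {M N : C} (f : M ⟶ N) (j : ℤ) : Prop :=
  ∃ x ∈ W.gr M j, x ≠ 0 ∧ (W.H.map f).hom x = 0

/-- Every endomorphism of `Q` factors as `Q ⟶ Φ(M) ⟶ Φ(N) ⟶ Q`, where the morphism in the
middle is defined over the base, up to a multiple of the identity. -/
def GenericCorr (Φ : C ⥤ C') {M N : C} {Q : C'} (a : Q ⟶ Φ.obj M) (b : Φ.obj N ⟶ Q) : Prop :=
  ∀ φ : Q ⟶ Q, ∃ (g : M ⟶ N) (c : ℚ), φ = a ≫ Φ.map g ≫ b + c • 𝟙 _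

/-- `X` is the generic hyperplane section of `Y`, over the function field `K` of the dual
projective space; `C`, `C'` stand for the motives over `k` and `K`, `Φ` for the base change
functor, `N = h(Y)`, `n = dim Y`, `L : h(Y) ⟶ h(Y)(1)` for the intersection with a hyperplane and
`P = h(X)`. -/
structure GenericSection (W : MotivicHomology C F) (W' : MotivicHomology C' F) (Φ : C ⥤ C')
    (N : C) (n : ℤ) (L : N ⟶ N ⊗ W.T 1) (P : C') where
  /-- the Gysin map `h(X)(1) ⟶ h(Y)(1)` -/
  a : P ⊗ W'.T 1 ⟶ Φ.obj (N ⊗ W.T 1)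
  /-- the restriction `h(Y) ⟶ h(X)(1)` -/
  b : Φ.obj N ⟶ P ⊗ W'.T 1
  /-- projection formula -/
  b_a : b ≫ a = Φ.map L
  /-- weak Lefschetz theorem: `H_j(Y) ⟶ H_(j-2)(X)(1)` is injective for `j > n` -/
  inj_b : ∀ j, n < j → InjH W' b j
  /-- weak Lefschetz theorem: `H_j(Y) ⟶ H_(j-2)(X)(1)` is surjective for `j > n + 1` -/
  surj_b : ∀ j, n + 1 < j → SurjH W' b j
  /-- weak Lefschetz theorem: `H_(j-2)(X)(1) ⟶ H_(j-2)(Y)(1)` is surjective for `j ≤ n + 1` -/
  surj_a : ∀ j, j ≤ n + 1 → SurjH W' a j
  /-- there is vanishing homology in the middle dimension `n - 1` of `X` -/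
  vanishing : KerH W' a (n + 1)
  /-- every self-correspondence of `X` is induced by a correspondence of `Y` defined over `k`, up
  to a multiple of the diagonal (`X × X` is the generic fibre of a family which outside the
  diagonal is a fibre product of projective bundles over `Y × Y`) -/
  generic : GenericCorr Φ a b

/-- Localisation: a class on `Y` whose restriction to the generic hyperplane section is zero is
supported on finitely many members of a Lefschetz pencil. Here `V i`, `i : ι`, are the motives of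
the varieties over `k` of dimension `< n`. -/
def GenericSection.Localisation {W : MotivicHomology C F} {W' : MotivicHomology C' F}
    {Φ : C ⥤ C'} {N : C} {n : ℤ} {L : N ⟶ N ⊗ W.T 1} {P : C'}
    (S : GenericSection W W' Φ N n L P) {ι : Type u} (V : ι → C) : Prop :=
  ∀ (l : ℤ) (α : W.CH l N), Φ.map α ≫ S.b = 0 →
    α ∈ Submodule.span ℚ {γ : W.CH l N | ∃ (i : ι) (m : Member W N n L (V i)) (ζ : W.CH l (V i)),
      γ = ζ ≫ m.a}

end two

/-- The category `C` of the Chow motives over a field, with a Weil homology `W`. -/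
structure Motives (F : Type w) [Field F] where
  C : Type u
  [cat : Category.{v} C]
  [pre : Preadditive C]
  [lin : Linear ℚ C]
  [mon : MonoidalCategory C]
  [sym : SymmetricCategory C]
  [mpre : MonoidalPreadditive C]
  [mlin : MonoidalLinear ℚ C]
  [rig : RigidCategory C]
  [sums : HasBinaryBiproducts C]
  [idem : IsIdempotentComplete C]
  W : MotivicHomology C F

attribute [instance] Motives.cat Motives.pre Motives.lin Motives.mon Motives.sym Motives.mpre
  Motives.mlin Motives.rig Motives.sums Motives.idem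

/-- The Chow motives and the smooth projective varieties over all fields. -/
structure Varieties (F : Type w) [Field F] where
  /-- the fields `k` -/
  Fld : Type u
  /-- the Chow motives over `k` -/
  mot : Fld → Motives.{w, v, u} F
  /-- the smooth projective varieties over `k` which are geometrically connected or of
  dimension `0` -/
  Var : Fld → Type u
  /-- the dimension -/
  dim : ∀ {k : Fld}, Var k → ℤ
  /-- the motive `h(Y)` -/
  h : ∀ {k : Fld}, Var k → (mot k).C
  dim_nonneg : ∀ {k : Fld} (Y : Var k), 0 ≤ dim Y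
  /-- every motive is a direct summand of some `h(Y)(m)` -/
  generated : ∀ {k : Fld} (M : (mot k).C), ∃ (Y : Var k) (m : ℤ),
    Nonempty (Retract M (h Y ⊗ (mot k).W.T m))
  /-- `H_j(Y) = 0` unless `0 ≤ j ≤ 2 dim Y` -/
  gr_out : ∀ {k : Fld} (Y : Var k) (j : ℤ), j < 0 ∨ 2 * dim Y < j → (mot k).W.gr (h Y) j = ⊥
  /-- `CH_l(Y) = 0` for `l > dim Y` -/
  CH_above : ∀ {k : Fld} (Y : Var k) (l : ℤ), dim Y < l → ∀ α : (mot k).W.CH l (h Y), α = 0
  /-- the algebraically closed fields -/
  Closed : Fld → Prop
  /-- the algebraic closure of `k` -/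
  closure : ∀ k : Fld, ∃ (K : Fld) (Φ : (mot k).C ⥤ (mot K).C), Closed K ∧
    Nonempty (BaseChange (mot k).W (mot K).W Φ) ∧
    ∀ Y : Var k, ∃ Y' : Var K, dim Y' = dim Y ∧ Nonempty (Φ.obj (h Y) ≅ h Y')

/-- A generic hyperplane section `X` of a variety with motive `N` and dimension `n`, for the
Lefschetz operator `L`: a field `K` and the variety `X` over `K`. -/
structure Varieties.Section {F : Type w} [Field F] (G : Varieties.{w, v, u} F) {k : G.Fld}
    (N : (G.mot k).C) (n : ℤ) (L : N ⟶ N ⊗ (G.mot k).W.T 1) where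
  /-- the function field of the dual projective space -/
  K : G.Fld
  /-- base change from `k` to `K` -/
  Φ : (G.mot k).C ⥤ (G.mot K).C
  bc : BaseChange (G.mot k).W (G.mot K).W Φ
  X : G.Var K
  sec : GenericSection (G.mot k).W (G.mot K).W Φ N n L (G.h X)

/-- The Chow motives over all fields, with the classical facts about hyperplane sections. -/
structure Geometry (F : Type w) [Field F] extends Varieties.{w, v, u} F where
  /-- For `Y` of dimension `n > 0` there is a projective embedding, with Lefschetz operator `L`,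
  such that `L : H_(n+1)(Y) ⟶ H_(n-1)(Y)(1)` is bijective (hard Lefschetz theorem), and such that
  `Y` and `Y × Y` have generic hyperplane sections with the properties above, with localisation
  to the members of a pencil if `k` is algebraically closed. -/
  lefschetz : ∀ {k : Fld} (Y : Var k), 0 < dim Y → ∃ L : h Y ⟶ h Y ⊗ (mot k).W.T 1,
    (InjH (mot k).W L (dim Y + 1) ∧ SurjH (mot k).W L (dim Y + 1)) ∧
    (∃ S : toVarieties.Section (h Y) (dim Y) L, dim S.X + 1 = dim Y ∧
      (Closed k → S.sec.Localisation (fun V : {V : Var k // dim V < dim Y} => h V.1))) ∧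
    Nonempty (toVarieties.Section (h Y ⊗ h Y) (2 * dim Y) (squareL (mot k).W L))

end Pool.Agent.Helper58.MAD
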