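import Pool.Agent.Helper58.MAD.Defs
import Pool.Agent.Helper15.Murre.Descent

open CategoryTheory MonoidalCategory Limits TensorProduct
open Pool.Agent.Helper15.Murre

universe w v u

namespace Pool.Agent.Helper58.MAD

variable {C : Type u} [Category.{v} C] [Preadditive C] [Linear ℚ C]
  [MonoidalCategory C] [SymmetricCategory C] [MonoidalPreadditive C] [MonoidalLinear ℚ C]
  [RigidCategory C] [HasBinaryBiproducts C] [IsIdempotentComplete C]
  {F : Type w} [Field F] {W : MotivicHomology C F}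
variable {C' : Type u} [Category.{v} C'] [Preadditive C'] [Linear ℚ C']
  [MonoidalCategory C'] [SymmetricCategory C'] [MonoidalPreadditive C'] [MonoidalLinear ℚ C']
  [RigidCategory C'] [HasBinaryBiproducts C'] [IsIdempotentComplete C']
  {W' : MotivicHomology C' F} {Φ : C ⥤ C'}

/-! Module Gen: inverses of the Lefschetz operator from the generic hyperplane section. -/

omit [MonoidalPreadditive C] [MonoidalLinear ℚ C] [HasBinaryBiproducts C]
  [IsIdempotentComplete C] in
/-- a rational multiple of the identity which kills a nonzero vector is zero -/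
lemma smul_id_eq_zero {M : C} (c : ℚ) (x : W.H.obj M) (hx : x ≠ 0)
    (h : (W.H.map (c • 𝟙 M)).hom x = 0) : c = 0 := by
  by_contra hc
  apply hx
  have h1 : (c • 𝟙 M) ≫ (c⁻¹ • 𝟙 M) = 𝟙 M := by
    rw [Linear.smul_comp, Linear.comp_smul, smul_smul, Category.comp_id, mul_inv_cancel₀ hc,
      one_smul]
  have h2 := W.map_comp_apply (c • 𝟙 M) (c⁻¹ • 𝟙 M) x
  rw [h1, W.map_id_apply, h, map_zero] at h2
  exact h2

/-- Let `π : h(X)(1) ⟶ h(X)(1)` act on homology as the projector onto the degrees in `Q`,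
`n + 1 ∉ Q`. Then `π = a g b + c` with `c = 0` (apply it to vanishing homology), and `g` is inverse
to `L` in the degrees of `Q`.
Proof. (i) `b π = b a g b = (L g) b` on `H_j`, and `b` is injective for `j > n`.
(ii) `a (g L) = a g b a = π a`, and `a` is surjective for `j ≤ n + 1`. Transport between `W` and
`W'` by `B.comp`, `B.comp_nat`, `B.comp_gr`. -/
theorem GenericSection.inverse (B : BaseChange W W' Φ) {N : C} {n : ℤ} {L : N ⟶ N ⊗ W.T 1}
    {P : C'} (S : GenericSection W W' Φ N n L P) (Q : ℤ → Prop) [DecidablePred Q]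
    (hQ : ¬ Q (n + 1)) (π : P ⊗ W'.T 1 ⟶ P ⊗ W'.T 1)
    (hπ : ∀ j, ∀ x ∈ W'.gr (P ⊗ W'.T 1) j, (W'.H.map π).hom x = if Q j then x else 0) :
    ∃ g : N ⊗ W.T 1 ⟶ N,
      (∀ j, n < j → ∀ y ∈ W.gr N j, (W.H.map (L ≫ g)).hom y = if Q j then y else 0) ∧
      (∀ j, j ≤ n + 1 → ∀ z ∈ W.gr (N ⊗ W.T 1) j,
        (W.H.map (g ≫ L)).hom z = if Q j then z else 0) := by
  obtain ⟨g, c, hg⟩ := S.generic π
  have hc : c = 0 := by
    obtain ⟨x, hx, hx0, hax⟩ := S.vanishing
    apply smul_id_eq_zero (W := W') c x hx0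
    have h1 := hπ (n + 1) x hx
    rw [if_neg hQ, hg, W'.map_add_apply] at h1
    simp only [W'.map_comp_apply, hax, map_zero, zero_add] at h1
    exact h1
  rw [hc, zero_smul, add_zero] at hg
  refine ⟨g, ?_, ?_⟩
  · intro j hj y hy
    have hy' : B.comp N y ∈ W'.gr (Φ.obj N) j := (B.comp_gr N j y).1 hy
    apply (B.comp N).injective
    rw [B.comp_nat]
    have h1 := hπ j _ (W'.map_gr S.b j _ hy')
    have h2 : S.b ≫ π = Φ.map (L ≫ g) ≫ S.b := by
      rw [hg, ← Category.assoc, S.b_a, Functor.map_comp, Category.assoc]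
    have h3 : (W'.H.map S.b).hom ((W'.H.map (Φ.map (L ≫ g))).hom (B.comp N y)) =
        (W'.H.map π).hom ((W'.H.map S.b).hom (B.comp N y)) := by
      rw [← W'.map_comp_apply, ← W'.map_comp_apply, h2]
    have h4 : (if Q j then B.comp N y else 0) = B.comp N (if Q j then y else 0) := by
      split_ifs
      · rfl
      · rw [map_zero]
    rw [← h4, ← sub_eq_zero]
    apply S.inj_b j hj
    · apply Submodule.sub_mem
      · exact W'.map_gr _ _ _ hy'
      · split_ifs
        · exact hy'
        · exact Submodule.zero_mem _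
    · rw [map_sub, h3, h1]
      split_ifs <;> simp
  · intro j hj z hz
    have hz' : B.comp _ z ∈ W'.gr (Φ.obj (N ⊗ W.T 1)) j := (B.comp_gr _ j z).1 hz
    apply (B.comp _).injective
    rw [B.comp_nat]
    obtain ⟨x, hx, hxz⟩ := S.surj_a j hj _ hz'
    have h1 := hπ j x hx
    have h2 : S.a ≫ Φ.map (g ≫ L) = π ≫ S.a := by
      rw [hg, Functor.map_comp, ← S.b_a]
      simp only [Category.assoc]
    rw [← hxz, ← W'.map_comp_apply, h2, W'.map_comp_apply, h1]
    split_ifs
    · exact hxz
    · rw [map_zero, map_zero]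

end Pool.Agent.Helper58.MAD
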