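import Pool.Agent.Helper15.MAD.TraceC

open CategoryTheory MonoidalCategory Limits TensorProduct
open Pool.Agent.Helper15.Murre

universe w v u

namespace Pool.Agent.Helper58.MAD

variable {C : Type u} [Category.{v} C] [Preadditive C] [Linear ℚ C]
  [MonoidalCategory C] [SymmetricCategory C] [MonoidalPreadditive C] [MonoidalLinear ℚ C]
  [RigidCategory C] [HasBinaryBiproducts C] [IsIdempotentComplete C]
  {F : Type w} [Field F] {W : MotivicHomology C F}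

/-! Module Trace: the inverse of `L : H_(n+1)(Y) ⟶ H_(n-1)(Y)(1)`. -/

/-- `R` is the projector onto `H_(n-1) ⊕ H_(n+1)`, and `g` is inverse to the Lefschetz operator
`L' = L ⊗ 1 + 1 ⊗ L` of `Y × Y` in the degrees `2n + 2` and `2n`. Then `L` has an algebraic
inverse in the middle. -/
theorem exists_mid {N : C} {n : ℤ} {L : N ⟶ N ⊗ W.T 1}
    (hinj : ∀ y ∈ W.gr N (n + 1), (W.H.map L).hom y = 0 → y = 0)
    (hsurj : ∀ z ∈ W.gr (N ⊗ W.T 1) (n + 1), ∃ y ∈ W.gr N (n + 1), (W.H.map L).hom y = z)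
    (R : N ⟶ N)
    (hR : ∀ j, ∀ x ∈ W.gr N j, (W.H.map R).hom x = if j = n + 1 ∨ j = n - 1 then x else 0)
    (g : (N ⊗ N) ⊗ W.T 1 ⟶ N ⊗ N)
    (hg₁ : ∀ x ∈ W.gr (N ⊗ N) (2 * n + 2), (W.H.map (squareL W L ≫ g)).hom x = x)
    (hg₂ : ∀ z ∈ W.gr ((N ⊗ N) ⊗ W.T 1) (2 * n), (W.H.map (g ≫ squareL W L)).hom z = z) :
    ∃ θ : N ⊗ W.T 1 ⟶ N, ∀ y ∈ W.gr N (n + 1), (W.H.map (L ≫ θ)).hom y = y :=
  Pool.Agent.Helper15.MAD.exists_mid hinj hsurj R hR g hg₁ hg₂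

end Pool.Agent.Helper58.MAD
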