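import Pool.Agent.Helper58.MAD.Defs
import Pool.Agent.Helper58.MAD.Basic
import Pool.Agent.Helper58.MAD.Lift
import Pool.Agent.Helper58.MAD.Gen
import Pool.Agent.Helper58.MAD.Trace

open CategoryTheory MonoidalCategory Limits TensorProduct
open Pool.Agent.Helper15.Murre

universe w v u

namespace Pool.Agent.Helper58.MAD

section alg

variable {C : Type u} [Category.{v} C] [Preadditive C] [Linear ℚ C]
  [MonoidalCategory C] [SymmetricCategory C] [RigidCategory C]
  {F : Type w} [Field F] {W : MotivicHomology C F}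

/-- `π` acts on homology as the projector onto the degrees in `Q` -/
def ProjOn (W : MotivicHomology C F) {N : C} (Q : ℤ → Prop) (π : N ⟶ N) : Prop :=
  ∀ j, ∀ x ∈ W.gr N j, (Q j → (W.H.map π).hom x = x) ∧ (¬ Q j → (W.H.map π).hom x = 0)

/-- the projector onto the degrees in `Q` is algebraic -/
def AlgOn (W : MotivicHomology C F) (N : C) (Q : ℤ → Prop) : Prop := ∃ π : N ⟶ N, ProjOn W Q π

lemma ProjOn.congr {N : C} {Q Q' : ℤ → Prop} {π : N ⟶ N} (h : ProjOn W Q π)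
    (hQ : ∀ j, Q j ↔ Q' j) : ProjOn W Q' π := fun j x hx =>
  ⟨fun hj => (h j x hx).1 ((hQ j).2 hj), fun hj => (h j x hx).2 (fun h' => hj ((hQ j).1 h'))⟩

lemma AlgOn.congr {N : C} {Q Q' : ℤ → Prop} (h : AlgOn W N Q) (hQ : ∀ j, Q j ↔ Q' j) :
    AlgOn W N Q' := by
  obtain ⟨π, hπ⟩ := h
  exact ⟨π, hπ.congr hQ⟩

lemma AlgOn.and {N : C} {Q Q' : ℤ → Prop} (h : AlgOn W N Q) (h' : AlgOn W N Q') :
    AlgOn W N (fun j => Q j ∧ Q' j) := by
  obtain ⟨π, hπ⟩ := h
  obtain ⟨π', hπ'⟩ := h'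
  refine ⟨π ≫ π', fun j x hx => ⟨fun hj => ?_, fun hj => ?_⟩⟩
  · rw [W.map_comp_apply, (hπ j x hx).1 hj.1, (hπ' j x hx).1 hj.2]
  · rw [W.map_comp_apply]
    by_cases h1 : Q j
    · rw [(hπ j x hx).1 h1, (hπ' j x hx).2 (fun h2 => hj ⟨h1, h2⟩)]
    · rw [(hπ j x hx).2 h1, map_zero]

lemma AlgOn.not {N : C} {Q : ℤ → Prop} (h : AlgOn W N Q) : AlgOn W N (fun j => ¬ Q j) := by
  obtain ⟨π, hπ⟩ := h
  refine ⟨𝟙 N - π, fun j x hx => ⟨fun hj => ?_, fun hj => ?_⟩⟩
  · rw [W.map_sub_apply, W.map_id_apply, (hπ j x hx).2 hj, sub_zero]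
  · rw [W.map_sub_apply, W.map_id_apply, (hπ j x hx).1 (not_not.1 hj), sub_self]

lemma AlgOn.or {N : C} {Q Q' : ℤ → Prop} (h : AlgOn W N Q) (h' : AlgOn W N Q') :
    AlgOn W N (fun j => Q j ∨ Q' j) :=
  (h.not.and h'.not).not.congr (fun j => by tauto)

lemma algOn_false (N : C) : AlgOn W N (fun _ => False) :=
  ⟨0, fun _ x _ => ⟨fun h => h.elim, fun _ => W.map_zero_apply x⟩⟩

/-- it is enough to know the Künneth projectors in the degrees of `Q` -/
lemma algOn_of_single {N : C} (Q : ℤ → Prop) (h : ∀ i, Q i → AlgOn W N (fun j => j = i)) :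
    AlgOn W N Q := by
  classical
  obtain ⟨s, hs⟩ := exists_degrees W N
  have h1 : ∀ t : Finset ℤ, AlgOn W N (fun j => j ∈ t ∧ Q j) := by
    intro t
    induction t using Finset.induction_on with
    | empty => exact (algOn_false N).congr (fun j => by simp)
    | insert a t _ ih =>
      by_cases ha : Q a
      · refine (ih.or (h a ha)).congr (fun j => ?_)
        rw [Finset.mem_insert]
        constructor
        · rintro (h1 | h1)
          · exact ⟨Or.inr h1.1, h1.2⟩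
          · exact ⟨Or.inl h1, h1 ▸ ha⟩
        · rintro ⟨h1 | h1, h2⟩
          · exact Or.inr h1
          · exact Or.inl ⟨h1, h2⟩
      · refine ih.congr (fun j => ?_)
        rw [Finset.mem_insert]
        constructor
        · rintro ⟨h1, h2⟩
          exact ⟨Or.inr h1, h2⟩
        · rintro ⟨h1 | h1, h2⟩
          · exact absurd (h1 ▸ h2) ha
          · exact ⟨h1, h2⟩
  obtain ⟨π, hπ⟩ := h1 s
  refine ⟨π, fun j x hx => ⟨fun hj => ?_, fun hj => ?_⟩⟩
  · by_cases hjs : j ∈ s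
    · exact (hπ j x hx).1 ⟨hjs, hj⟩
    · rw [hs j hjs x hx, map_zero]
  · exact (hπ j x hx).2 (fun h' => hj h'.2)

lemma KunnethHom.algOn {N : C} (h : KunnethHom W N) (Q : ℤ → Prop) : AlgOn W N Q := by
  apply algOn_of_single
  intro i _
  obtain ⟨π, hπ⟩ := h i
  refine ⟨π, fun j x hx => ⟨fun hj => ?_, fun hj => ?_⟩⟩
  · rw [hπ j x hx, if_pos hj]
  · rw [hπ j x hx, if_neg hj]

lemma kunnethHom_of_algOn {N : C} (h : ∀ i, AlgOn W N (fun j => j = i)) : KunnethHom W N := by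
  intro i
  obtain ⟨π, hπ⟩ := h i
  refine ⟨π, fun j x hx => ?_⟩
  split_ifs with hj
  · exact (hπ j x hx).1 hj
  · exact (hπ j x hx).2 hj

lemma ProjOn.iff_ite {N : C} {Q : ℤ → Prop} [DecidablePred Q] {π : N ⟶ N} :
    ProjOn W Q π ↔ ∀ j, ∀ x ∈ W.gr N j, (W.H.map π).hom x = if Q j then x else 0 := by
  constructor
  · intro h j x hx
    split_ifs with hj
    · exact (h j x hx).1 hj
    · exact (h j x hx).2 hj
  · intro h j x hx
    exact ⟨fun hj => by rw [h j x hx, if_pos hj], fun hj => by rw [h j x hx, if_neg hj]⟩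

lemma ProjOn.retract {N M : C} {Q : ℤ → Prop} (R : Retract N M) {π : M ⟶ M}
    (h : ProjOn W Q π) : ProjOn W Q (R.i ≫ π ≫ R.r) := by
  intro j x hx
  refine ⟨fun hj => ?_, fun hj => ?_⟩
  · rw [W.map_comp_apply, W.map_comp_apply, (h j _ (W.map_gr _ _ _ hx)).1 hj,
      ← W.map_comp_apply, R.retract, W.map_id_apply]
  · rw [W.map_comp_apply, W.map_comp_apply, (h j _ (W.map_gr _ _ _ hx)).2 hj, map_zero]

end alg

section alg2

variable {C : Type u} [Category.{v} C] [Preadditive C] [Linear ℚ C]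
  [MonoidalCategory C] [SymmetricCategory C] [MonoidalPreadditive C] [MonoidalLinear ℚ C]
  [RigidCategory C] [HasBinaryBiproducts C] [IsIdempotentComplete C]
  {F : Type w} [Field F] {W : MotivicHomology C F}

lemma ProjOn.twist {N : C} {Q : ℤ → Prop} {π : N ⟶ N} (h : ProjOn W Q π) (m : ℤ) :
    ProjOn W (fun j => Q (j - 2 * m)) (π ▷ W.T m) := by
  intro j z hz
  refine ⟨fun hj => ?_, fun hj => ?_⟩
  · exact map_whisker_one π m j (fun x hx => (h _ x hx).1 hj) z hz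
  · exact map_whisker_zero π m j (fun x hx => (h _ x hx).2 hj) z hz

lemma AlgOn.twist {N : C} {Q : ℤ → Prop} (h : AlgOn W N Q) (m : ℤ) :
    AlgOn W (N ⊗ W.T m) (fun j => Q (j - 2 * m)) := by
  obtain ⟨π, hπ⟩ := h
  exact ⟨_, hπ.twist m⟩

lemma AlgOn.untwist {N : C} {Q : ℤ → Prop} {m : ℤ} (h : AlgOn W (N ⊗ W.T m) Q) :
    AlgOn W N (fun j => Q (j + 2 * m)) := by
  obtain ⟨π, hπ⟩ := h.twist (-m)
  let e := Pool.Agent.Helper15.Murre.untwist W N m
  have h1 := hπ.retract (N := N) ⟨e.inv, e.hom, e.inv_hom_id⟩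
  exact ⟨_, h1.congr (fun j => by
    have : j - 2 * -m = j + 2 * m := by ring
    rw [this])⟩

end alg2

variable {C : Type u} [Category.{v} C] [Preadditive C] [Linear ℚ C]
  [MonoidalCategory C] [SymmetricCategory C] [MonoidalPreadditive C] [MonoidalLinear ℚ C]
  [RigidCategory C] [HasBinaryBiproducts C] [IsIdempotentComplete C]
  {F : Type w} [Field F] {W : MotivicHomology C F}
variable {C' : Type u} [Category.{v} C'] [Preadditive C'] [Linear ℚ C']
  [MonoidalCategory C'] [SymmetricCategory C'] [MonoidalPreadditive C'] [MonoidalLinear ℚ C']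
  [RigidCategory C'] [HasBinaryBiproducts C'] [IsIdempotentComplete C']
  {W' : MotivicHomology C' F} {Φ : C ⥤ C'}

/-! Module Kunneth: from the sign conjecture to the Künneth projectors and the inverses of `L`,
by induction on the dimension. -/

/-- `GenericSection.inverse` for an algebraic set of degrees -/
lemma GenericSection.inverse' (B : BaseChange W W' Φ) {N : C} {n : ℤ} {L : N ⟶ N ⊗ W.T 1}
    {P : C'} (S : GenericSection W W' Φ N n L P) (Q : ℤ → Prop)
    (hQ : ¬ Q (n + 1)) (hπ : AlgOn W' (P ⊗ W'.T 1) Q) :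
    ∃ g : N ⊗ W.T 1 ⟶ N,
      (∀ j, n < j → ∀ y ∈ W.gr N j, (Q j → (W.H.map (L ≫ g)).hom y = y) ∧
        (¬ Q j → (W.H.map (L ≫ g)).hom y = 0)) ∧
      (∀ j, j ≤ n + 1 → ∀ z ∈ W.gr (N ⊗ W.T 1) j, (Q j → (W.H.map (g ≫ L)).hom z = z) ∧
        (¬ Q j → (W.H.map (g ≫ L)).hom z = 0)) := by
  classical
  obtain ⟨π, hπ⟩ := hπ
  obtain ⟨g, h1, h2⟩ := GenericSection.inverse B S Q hQ π (ProjOn.iff_ite.1 hπ)
  refine ⟨g, fun j hj y hy => ⟨fun h => ?_, fun h => ?_⟩,
    fun j hj z hz => ⟨fun h => ?_, fun h => ?_⟩⟩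
  · rw [h1 j hj y hy, if_pos h]
  · rw [h1 j hj y hy, if_neg h]
  · rw [h2 j hj z hz, if_pos h]
  · rw [h2 j hj z hz, if_neg h]

/-- One step. `S` is the generic section of `Y`, whose Künneth projectors are algebraic, `S₂` the
generic section of `Y × Y`, for which the sign conjecture holds.
Proof. `GenericSection.inverse` for `S`: with `Q j = (n + 1 < j)`: `σ`; with `Q j = (j < n + 1)`:
`ρ₀` with `ρ₀ L = 1` on `H_j(N(1))`, `j ≤ n`; with `Q j = (j = i)`: `g_i`. Künneth projectors: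
`π_i = L g_i L σ` for `i ≥ n + 2`; for `i ≤ n - 2` the untwist of `ρ₀ L g_(i+2) L`
(`H_j(N(1)) = H_(j-2)(N)(1)`). With the sign projector: `π_n` and `R = π_(n-1) + π_(n+1)`.
`GenericSection.inverse` for `S₂` with `Q = Even` and `exists_mid`: the middle inverse `θ`, then
`π_(n+1) = L θ R` etc. and `ρ = cut ρ₀ + π_(n+1)(N(1)) θ`. -/
theorem kunneth_step {C₂ : Type u} [Category.{v} C₂] [Preadditive C₂] [Linear ℚ C₂]
    [MonoidalCategory C₂] [SymmetricCategory C₂] [MonoidalPreadditive C₂] [MonoidalLinear ℚ C₂]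
    [RigidCategory C₂] [HasBinaryBiproducts C₂] [IsIdempotentComplete C₂]
    {W₂ : MotivicHomology C₂ F} {Φ₂ : C ⥤ C₂}
    {N : C} {n : ℤ} {L : N ⟶ N ⊗ W.T 1}
    (hinj : ∀ y ∈ W.gr N (n + 1), (W.H.map L).hom y = 0 → y = 0)
    (hsurj : ∀ z ∈ W.gr (N ⊗ W.T 1) (n + 1), ∃ y ∈ W.gr N (n + 1), (W.H.map L).hom y = z)
    (hN : SignConj W N)
    (B : BaseChange W W' Φ) {P : C'} (S : GenericSection W W' Φ N n L P) (hP : KunnethHom W' P)
    (B₂ : BaseChange W W₂ Φ₂) {P₂ : C₂}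
    (S₂ : GenericSection W W₂ Φ₂ (N ⊗ N) (2 * n) (squareL W L) P₂) (hP₂ : SignConj W₂ P₂) :
    KunnethHom W N ∧
    (∃ σ : N ⊗ W.T 1 ⟶ N, ∀ j, n + 1 < j → ∀ y ∈ W.gr N j,
      (W.H.map (L ≫ σ)).hom y = y) ∧
    (∃ ρ : N ⊗ W.T 1 ⟶ N, ∀ j, j ≤ n + 1 → ∀ z ∈ W.gr (N ⊗ W.T 1) j,
      (W.H.map (ρ ≫ L)).hom z = z) := by
  have hP1 : ∀ Q, AlgOn W' (P ⊗ W'.T 1) Q := (hP.twist 1).algOn
  obtain ⟨σ, hσ, hσ'⟩ := GenericSection.inverse' B S (fun j => n + 1 < j) (lt_irrefl _) (hP1 _)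
  obtain ⟨ρ, hρ, hρ'⟩ := GenericSection.inverse' B S (fun j => j < n + 1) (lt_irrefl _) (hP1 _)
  -- Künneth projectors in the outer degrees
  have houter : ∀ i, (i ≤ n - 2 ∨ n + 2 ≤ i) → AlgOn W N (fun j => j = i) := by
    rintro i (hi | hi)
    · obtain ⟨g, hg, hg'⟩ := GenericSection.inverse' B S (fun j => j = i + 2) (by omega) (hP1 _)
      have h1 : AlgOn W (N ⊗ W.T 1) (fun j => j = i + 2) := by
        refine ⟨ρ ≫ L ≫ g ≫ L, fun j z hz => ?_⟩
        have e1 : (W.H.map (ρ ≫ L ≫ g ≫ L)).hom z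
            = (W.H.map (g ≫ L)).hom ((W.H.map (ρ ≫ L)).hom z) := by
          simp only [W.map_comp_apply]
        have e2 : (W.H.map (ρ ≫ L ≫ g ≫ L)).hom z
            = (W.H.map L).hom ((W.H.map (L ≫ g)).hom ((W.H.map ρ).hom z)) := by
          simp only [W.map_comp_apply]
        refine ⟨fun hj => ?_, fun hj => ?_⟩
        · rw [e1, (hρ' j (by omega) z hz).1 (by omega), (hg' j (by omega) z hz).1 hj]
        · by_cases h3 : j ≤ n
          · rw [e1, (hρ' j (by omega) z hz).1 (by omega), (hg' j (by omega) z hz).2 hj]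
          · rw [e2, (hg j (by omega) _ (W.map_gr _ _ _ hz)).2 hj, map_zero]
      exact h1.untwist.congr (fun j => by constructor <;> intro h <;> omega)
    · obtain ⟨g, hg, hg'⟩ := GenericSection.inverse' B S (fun j => j = i) (by omega) (hP1 _)
      refine ⟨L ≫ g ≫ L ≫ σ, fun j y hy => ?_⟩
      have e1 : (W.H.map (L ≫ g ≫ L ≫ σ)).hom y
          = (W.H.map (L ≫ σ)).hom ((W.H.map (L ≫ g)).hom y) := by
        simp only [W.map_comp_apply]
      have e2 : (W.H.map (L ≫ g ≫ L ≫ σ)).hom y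
          = (W.H.map σ).hom ((W.H.map (g ≫ L)).hom ((W.H.map L).hom y)) := by
        simp only [W.map_comp_apply]
      refine ⟨fun hj => ?_, fun hj => ?_⟩
      · rw [e1, (hg j (by omega) y hy).1 hj, (hσ j (by omega) y hy).1 (by omega)]
      · by_cases h3 : n < j
        · rw [e1, (hg j h3 y hy).2 hj, map_zero]
        · rw [e2, (hg' j (by omega) _ (W.map_gr _ _ _ hy)).2 hj, map_zero]
  have hout : AlgOn W N (fun j => j ≤ n - 2 ∨ n + 2 ≤ j) := algOn_of_single _ houter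
  have heven : AlgOn W N (fun j => Even j) := by
    obtain ⟨p, hp⟩ := hN
    exact ⟨p, ProjOn.iff_ite.2 hp⟩
  have hpar : ∀ k : ℤ, AlgOn W N (fun j => Even (j + k)) := by
    intro k
    rcases Int.even_or_odd k with hk | hk
    · exact heven.congr (fun j => by rw [Int.even_add]; tauto)
    · exact heven.not.congr (fun j => by
        rw [Int.even_add]
        rw [← Int.not_even_iff_odd] at hk
        tauto)
  have hmid : AlgOn W N (fun j => j = n) :=
    ((hpar n).and hout.not).congr (fun j => by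
      constructor
      · rintro ⟨⟨r, hr⟩, h2⟩
        push Not at h2
        omega
      · rintro rfl
        exact ⟨⟨j, rfl⟩, by push Not; omega⟩)
  have hR : AlgOn W N (fun j => j = n + 1 ∨ j = n - 1) :=
    ((hpar (n + 1)).and hout.not).congr (fun j => by
      constructor
      · rintro ⟨⟨r, hr⟩, h2⟩
        push Not at h2
        omega
      · rintro (rfl | rfl)
        · exact ⟨⟨n + 1, rfl⟩, by push Not; omega⟩
        · exact ⟨⟨n, by ring⟩, by push Not; omega⟩)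
  obtain ⟨R, hRp⟩ := hR
  -- the square
  have hP₂1 : AlgOn W₂ (P₂ ⊗ W₂.T 1) (fun j => Even j) := by
    obtain ⟨p, hp⟩ := hP₂
    have h1 : ProjOn W₂ (fun j => Even j) p := ProjOn.iff_ite.2 hp
    exact ⟨_, (h1.twist 1).congr (fun j => by
      constructor
      · rintro ⟨r, hr⟩; exact ⟨r + 1, by omega⟩
      · rintro ⟨r, hr⟩; exact ⟨r - 1, by omega⟩)⟩
  obtain ⟨g₂, hg₂, hg₂'⟩ := GenericSection.inverse' B₂ S₂ (fun j => Even j)
    (by rintro ⟨r, hr⟩; omega) hP₂1
  obtain ⟨θ, hθ⟩ := exists_mid hinj hsurj R (fun j x hx => by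
      split_ifs with hj
      · exact (hRp j x hx).1 hj
      · exact (hRp j x hx).2 hj) g₂
    (fun x hx => (hg₂ (2 * n + 2) (by omega) x hx).1 ⟨n + 1, by ring⟩)
    (fun z hz => (hg₂' (2 * n) (by omega) z hz).1 ⟨n, by ring⟩)
  have hθ' : ∀ z ∈ W.gr (N ⊗ W.T 1) (n + 1), (W.H.map (θ ≫ L)).hom z = z := by
    intro z hz
    obtain ⟨y, hy, rfl⟩ := hsurj z hz
    have h1 := hθ y hy
    rw [W.map_comp_apply] at h1
    rw [W.map_comp_apply, h1]
  have hplus : AlgOn W N (fun j => j = n + 1) := by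
    refine ⟨L ≫ (R ▷ W.T 1) ≫ θ ≫ R, fun j y hy => ?_⟩
    have hR1 := hRp.twist 1
    have hLy := W.map_gr L _ _ hy
    simp only [W.map_comp_apply]
    refine ⟨fun hj => ?_, fun hj => ?_⟩
    · subst hj
      have h2 := hθ y hy
      rw [W.map_comp_apply] at h2
      rw [(hR1 _ _ hLy).1 (Or.inr (by ring)), h2]
      exact (hRp _ y hy).1 (Or.inl rfl)
    · by_cases h1 : j = n + 3
      · exact (hRp j _ (W.map_gr _ _ _ (W.map_gr _ _ _ hLy))).2 (by omega)
      · rw [(hR1 _ _ hLy).2 (by omega), map_zero, map_zero]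
  have hminus : AlgOn W N (fun j => j = n - 1) :=
    (AlgOn.and ⟨R, hRp⟩ hplus.not).congr (fun j => by constructor <;> intro h <;> omega)
  have hKun : KunnethHom W N := by
    apply kunnethHom_of_algOn
    intro i
    by_cases h1 : i ≤ n - 2 ∨ n + 2 ≤ i
    · exact houter i h1
    · have h2 : i = n - 1 ∨ i = n ∨ i = n + 1 := by omega
      rcases h2 with rfl | rfl | rfl
      · exact hminus
      · exact hmid
      · exact hplus
  refine ⟨hKun, ⟨σ, fun j hj y hy => (hσ j (by omega) y hy).1 hj⟩, ?_⟩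
  obtain ⟨c, hc⟩ := (hKun.twist 1).algOn (fun j => j ≤ n)
  obtain ⟨p, hp⟩ := (hKun.twist 1).algOn (fun j => j = n + 1)
  refine ⟨c ≫ ρ + p ≫ θ, fun j hj z hz => ?_⟩
  rw [Preadditive.add_comp, W.map_add_apply]
  simp only [Category.assoc]
  rw [W.map_comp_apply c, W.map_comp_apply p]
  by_cases h1 : j ≤ n
  · rw [(hc j z hz).1 h1, (hp j z hz).2 (by omega), (hρ' j hj z hz).1 (by omega), map_zero,
      add_zero]
  · have h2 : j = n + 1 := by omega
    rw [(hc j z hz).2 h1, (hp j z hz).1 h2, map_zero, zero_add]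
    subst h2
    exact hθ' z hz

end Pool.Agent.Helper58.MAD
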