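import Pool.Agent.Helper58.MAD.Basic
import Pool.Agent.Helper90.MAD.Tools

open CategoryTheory MonoidalCategory Limits TensorProduct
open Pool.Agent.Helper15.Murre

universe w v u

namespace Pool.Agent.Helper58.MAD

open Pool.Agent.Helper90.MAD

variable {C : Type u} [Category.{v} C] [Preadditive C] [Linear ℚ C]
  [MonoidalCategory C] [SymmetricCategory C] [MonoidalPreadditive C] [MonoidalLinear ℚ C]
  [RigidCategory C] [HasBinaryBiproducts C] [IsIdempotentComplete C]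
  {F : Type w} [Field F] {W : MotivicHomology C F}
variable {C' : Type u} [Category.{v} C'] [Preadditive C'] [Linear ℚ C']
  [MonoidalCategory C'] [SymmetricCategory C'] [MonoidalPreadditive C'] [MonoidalLinear ℚ C']
  [RigidCategory C'] [HasBinaryBiproducts C'] [IsIdempotentComplete C']
  {W' : MotivicHomology C' F} {Φ : C ⥤ C'}

/-! Module Main: the vanishing of `CH_l(P)` for the summands `P` of `h(Y)` of weights `< 2l`. -/

/-- a good object, the complement of a truncation idempotent: `x w = x` -/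
theorem Good.trunc {N : C} (h : Good W N) {w : N ⟶ N} {r : ℤ} (hw : IsTrunc W w r) (l : ℤ)
    (hr : r ≤ 2 * l + 1) {A : C} (e : W.T l ≅ A) (x : A ⟶ N)
    (hx : W.H.map (x ≫ (𝟙 N - w)) = 0) : x ≫ w = x := by
  have h1 := h.kill (one_sub_idem hw.idem) l (fun j hj y hy => by
    rw [map_one_sub, hw.one j (by omega) y hy, sub_self]) e x hx
  rw [Preadditive.comp_sub, Category.comp_id, sub_eq_zero] at h1
  exact h1.symm

omit [MonoidalPreadditive C] [MonoidalLinear ℚ C] [HasBinaryBiproducts C]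
  [IsIdempotentComplete C] in
/-- a class in homological degree `d ≥ r` is not seen by `1 - w` -/
theorem IsTrunc.kill_source {N : C} {w : N ⟶ N} {r : ℤ} (hw : IsTrunc W w r) {A : C} (l : ℤ)
    (hl : r ≤ 2 * l) (e : W.T l ≅ A) (x : A ⟶ N) : W.H.map (x ≫ (𝟙 N - w)) = 0 := by
  have h1 : W.H.map (e.hom ≫ x ≫ (𝟙 N - w)) = 0 := by
    apply W.hext
    intro j y _
    have hy := W.map_gr (e.hom ≫ x) (2 * l) y (W.mem_gr_tate l y)
    rw [← Category.assoc, W.map_comp_apply, map_one_sub, hw.one _ hl _ hy, sub_self]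
    rfl
  have h2 : x ≫ (𝟙 N - w) = e.inv ≫ e.hom ≫ x ≫ (𝟙 N - w) := by simp
  rw [h2, Functor.map_comp, h1, comp_zero]

/-- The case `2l ≤ n`. Proof: all weights of `f` are `< 2l ≤ n`. Put `f₁ = f ▷ 1`,
`s = Φ(f₁ ρ) b`, `t = a Φ(f₁)`, so `s t = Φ(f₁ ρ L f₁)`, homologically equal to `Φ(f₁)`.
Let `w` be the truncation (degrees `≥ 2l + 2`) of `h(X)(1)`. For `x = Φ((α f) ▷ 1)`:
`x s (1 - w) = 0` as `h(X)(1)` is good, so `x Φ(f₁ ρ L f₁) = x s t = x s w t`, and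
`x = x E` with `E = Φ(f₁ - f₁ ρ L f₁) + s w t` homologically trivial (`f₁` kills degrees
`≥ 2l + 2`), so nilpotent: `x = 0`. -/
theorem vanish_low (hA' : ∀ M : C', MurreA W' M) (hN' : NilHom W') (B : BaseChange W W' Φ)
    {N : C} {n : ℤ} {L : N ⟶ N ⊗ W.T 1} {P : C'} (S : GenericSection W W' Φ N n L P)
    (hP : Good W' (P ⊗ W'.T 1)) (ρ : N ⊗ W.T 1 ⟶ N)
    (hρ : ∀ j, j ≤ n + 1 → ∀ z ∈ W.gr (N ⊗ W.T 1) j, (W.H.map (ρ ≫ L)).hom z = z)
    (l : ℤ) (hl : 2 * l ≤ n) (f : N ⟶ N) (hf : f ≫ f = f)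
    (hf0 : ∀ j, 2 * l ≤ j → ∀ x ∈ W.gr N j, (W.H.map f).hom x = 0) (α : W.CH l N) :
    α ≫ f = 0 := by
  have hadd := B.additive
  have hfaith := B.faithful
  obtain ⟨w, hw⟩ := exists_trunc (hA' (P ⊗ W'.T 1)) (2 * l + 2)
  set f₁ : N ⊗ W.T 1 ⟶ N ⊗ W.T 1 := f ▷ W.T 1 with hf₁
  have hf₁f : f₁ ≫ f₁ = f₁ := by rw [hf₁, ← comp_whiskerRight, hf]
  have hf₁0 : ∀ j, 2 * l + 2 ≤ j → ∀ x ∈ W.gr (N ⊗ W.T 1) j, (W.H.map f₁).hom x = 0 :=
    fun j hj => tw_zero f (hf0 (j - 2 * 1) (by omega))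
  let s : Φ.obj (N ⊗ W.T 1) ⟶ P ⊗ W'.T 1 := Φ.map (f₁ ≫ ρ) ≫ S.b
  let t : P ⊗ W'.T 1 ⟶ Φ.obj (N ⊗ W.T 1) := S.a ≫ Φ.map f₁
  have hst : s ≫ t = Φ.map (f₁ ≫ ρ ≫ L ≫ f₁) := by
    change (Φ.map (f₁ ≫ ρ) ≫ S.b) ≫ S.a ≫ Φ.map f₁ = _
    have h1 : (Φ.map (f₁ ≫ ρ) ≫ S.b) ≫ S.a ≫ Φ.map f₁
        = Φ.map (f₁ ≫ ρ) ≫ (S.b ≫ S.a) ≫ Φ.map f₁ := by simp only [Category.assoc]
    rw [h1, S.b_a, ← Φ.map_comp, ← Φ.map_comp]
    simp only [Category.assoc]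
  -- the class `x`
  let x : Φ.obj (W.T l ⊗ W.T 1) ⟶ Φ.obj (N ⊗ W.T 1) := Φ.map ((α ≫ f) ▷ W.T 1)
  have hxf : x ≫ Φ.map f₁ = x := by
    change Φ.map ((α ≫ f) ▷ W.T 1) ≫ Φ.map f₁ = Φ.map ((α ≫ f) ▷ W.T 1)
    rw [← Φ.map_comp, hf₁, ← comp_whiskerRight, Category.assoc, hf]
  let e : W'.T (l + 1) ≅ Φ.obj (W.T l ⊗ W.T 1) := B.tate (l + 1) ≪≫ Φ.mapIso (W.tateAdd l 1)
  have hxs : (x ≫ s) ≫ w = x ≫ s :=
    hP.trunc hw (l + 1) (by omega) e (x ≫ s) (hw.kill_source (l + 1) (by omega) e _)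
  let E : Φ.obj (N ⊗ W.T 1) ⟶ Φ.obj (N ⊗ W.T 1) :=
    Φ.map (f₁ - f₁ ≫ ρ ≫ L ≫ f₁) + s ≫ w ≫ t
  have hxE : x ≫ E = x := by
    change x ≫ (Φ.map (f₁ - f₁ ≫ ρ ≫ L ≫ f₁) + s ≫ w ≫ t) = x
    rw [Preadditive.comp_add, Φ.map_sub, Preadditive.comp_sub, hxf]
    have h1 : x ≫ s ≫ w ≫ t = x ≫ s ≫ t := by
      have h2 : x ≫ s ≫ w ≫ t = ((x ≫ s) ≫ w) ≫ t := by simp only [Category.assoc]
      rw [h2, hxs, Category.assoc]
    rw [h1, hst]
    abel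
  have hE : W'.H.map E = 0 := by
    have hadd' := W'.additive
    change W'.H.map (Φ.map (f₁ - f₁ ≫ ρ ≫ L ≫ f₁) + s ≫ w ≫ t) = 0
    have h1 : W.H.map (f₁ - f₁ ≫ ρ ≫ L ≫ f₁) = 0 := by
      apply W.hext
      intro j z hz
      rw [W.map_sub_apply]
      have h2 : f₁ ≫ ρ ≫ L ≫ f₁ = f₁ ≫ (ρ ≫ L) ≫ f₁ := by simp only [Category.assoc]
      rw [h2, W.map_comp_apply, W.map_comp_apply]
      by_cases hj : 2 * l + 2 ≤ j
      · rw [hf₁0 j hj z hz]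
        simp
      · rw [hρ j (by omega) _ (W.map_gr _ _ _ hz), ← W.map_comp_apply, hf₁f, sub_self]
        rfl
    rw [Functor.map_add, bc_hom B h1, zero_add]
    apply W'.hext
    intro j z hz
    rw [W'.map_comp_apply, W'.map_comp_apply]
    have hsz := W'.map_gr s j z hz
    by_cases hj : j < 2 * l + 2
    · rw [hw.zero j hj _ hsz, map_zero]
      rfl
    · rw [hw.one j (by omega) _ hsz]
      change (W'.H.map (S.a ≫ Φ.map f₁)).hom _ = _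
      rw [W'.map_comp_apply]
      exact bc_zero B (hf₁0 j (by omega)) _ (W'.map_gr _ _ _ hsz)
  have hx0 : x = 0 := nil_kill hN' x E hE hxE
  apply whisker_faithful (W := W) (α ≫ f) 1
  apply hfaith.map_injective
  rw [Φ.map_zero]
  exact hx0

theorem pw_zero_mono {N : C} {A : C} (x : A ⟶ N) (u : N ⟶ N) {m m' : ℕ} (h : m ≤ m')
    (hx : x ≫ pw u m = 0) : x ≫ pw u m' = 0 := by
  induction m', h using Nat.le_induction with
  | base => exact hx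
  | succ k _ ih => rw [pw, ← Category.assoc, ih, zero_comp]

/-- the members: `(ζ a ▷ 1)(1 - σ w'' L)^M = 0` -/
theorem member_nil (hA : ∀ M : C, MurreA W M) (hN : NilHom W)
    {N : C} {n : ℤ} {L : N ⟶ N ⊗ W.T 1} {V : C} (m : Member W N n L V)
    (hV : Good W (V ⊗ W.T 1)) (σ : N ⊗ W.T 1 ⟶ N)
    (hσ : ∀ j, n + 1 < j → ∀ y ∈ W.gr N j, (W.H.map (L ≫ σ)).hom y = y)
    (l : ℤ) (hl : n < 2 * l) {w : N ⟶ N} (hw : IsTrunc W w (2 * l + 2)) (ζ : W.CH l V) :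
    ∃ M : ℕ, ((ζ ≫ m.a) ▷ W.T 1) ≫ pw (𝟙 _ - σ ≫ w ≫ L) M = 0 := by
  obtain ⟨g, hg⟩ := exists_trunc (hA (V ⊗ W.T 1)) (2 * l + 2)
  let u : V ⊗ W.T 1 ⟶ V ⊗ W.T 1 := (m.a ▷ W.T 1) ≫ σ ≫ w ≫ m.b + (m.e ▷ W.T 1)
  have hgu : W.H.map (g ≫ u ≫ g) = W.H.map g := by
    apply W.hext
    intro j z hz
    rw [W.map_comp_apply]
    by_cases hj : j < 2 * l + 2
    · rw [hg.zero j hj z hz, map_zero]
    · rw [hg.one j (by omega) z hz, W.map_comp_apply]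
      obtain ⟨y, hy, hzy⟩ := m.split j (by omega) z hz
      have hu : (W.H.map u).hom z = z := by
        change (W.H.map ((m.a ▷ W.T 1) ≫ σ ≫ w ≫ m.b + (m.e ▷ W.T 1))).hom z = z
        rw [W.map_add_apply]
        have h1 : (W.H.map (m.a ▷ W.T 1)).hom z = (W.H.map L).hom y := by
          conv_lhs => rw [hzy]
          rw [map_add, ← W.map_comp_apply, ← W.map_comp_apply, m.b_a, ← comp_whiskerRight, m.e_a]
          have h2 : (0 : V ⟶ N) ▷ W.T 1 = 0 := MonoidalPreadditive.zero_whiskerRight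
          rw [h2, W.map_zero_apply, add_zero]
        rw [W.map_comp_apply, h1, W.map_comp_apply, ← W.map_comp_apply L σ,
          hσ j (by omega) y hy, W.map_comp_apply, hw.one j (by omega) y hy]
        exact hzy.symm
      rw [hu, hg.one j (by omega) z hz]
  obtain ⟨M, hM⟩ := unip hN (A := W.T l ⊗ W.T 1) Set.univ g u hg.idem (fun _ _ => trivial)
    (fun y _ => hV.trunc hg (l + 1) (by omega) (W.tateAdd l 1) y
      (hg.kill_source (l + 1) (by omega) (W.tateAdd l 1) y)) hgu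
  refine ⟨M, ?_⟩
  have hc : (𝟙 _ - u) ≫ (m.a ▷ W.T 1) = (m.a ▷ W.T 1) ≫ (𝟙 _ - σ ≫ w ≫ L) := by
    change (𝟙 _ - ((m.a ▷ W.T 1) ≫ σ ≫ w ≫ m.b + (m.e ▷ W.T 1))) ≫ (m.a ▷ W.T 1) = _
    have h2 : (0 : V ⟶ N) ▷ W.T 1 = 0 := MonoidalPreadditive.zero_whiskerRight
    have h3 : (m.e ▷ W.T 1) ≫ (m.a ▷ W.T 1) = 0 := by
      rw [← comp_whiskerRight, m.e_a, h2]
    rw [Preadditive.sub_comp, Preadditive.add_comp, h3, add_zero, Preadditive.comp_sub,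
      Category.id_comp, Category.comp_id]
    congr 1
    simp only [Category.assoc]
    rw [m.b_a]
  have h4 := pw_comp hc M
  have h5 : ((ζ ≫ m.a) ▷ W.T 1) = (ζ ▷ W.T 1) ≫ (m.a ▷ W.T 1) := comp_whiskerRight _ _ _
  rw [h5, Category.assoc, ← h4, ← Category.assoc, hM _ trivial, zero_comp]

/-- The case `2l > n`. Proof: `w' = cut_{≥ 2l+1}`, `w'' = cut_{≥ 2l+2}` of `N`, `x = α f`.
(1) `u = a Φ(σ w') b` on `h(X)(1)`. For `y ∈ CH_l(h(X)(1))_hom`: `y g' = y` with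
`g' = cut_{≥ 2l+1}` of `h(X)(1)` (good); `g' u g'` is `g'` in homology (`surj_b`, `2l + 1 ≥ n + 2`);
`unip`: `y (1 - u)^m = 0`. Since `b u = Φ(L σ w') b`: `z = x (1 - L σ w')^m` has `Φ(z) b = 0`.
(2) Localisation: `z` is a sum of `ζ a_t`. `u_t = (a_t ▷ 1) σ w'' b_t + (e_t ▷ 1)` on `V(1)`; for
every `y ∈ CH_{l+1}(V(1))`: `y g'' = y`, `g'' = cut_{≥ 2l+2}` of `V(1)` (good), and `g'' u_t g''` is
`g''` in homology (`split`, `b_e`, `2l + 2 > n + 2`); so `(ζ ▷ 1)(1 - u_t)^M = 0`, and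
`u_t (a_t ▷ 1) = (a_t ▷ 1) σ w'' L`; so `(z ▷ 1)(1 - σ w'' L)^M = 0`.
(3) `x₁ = x ▷ 1`: `x₁ = x₁ R` with `R = 1 - ((1 - L σ w')^m ▷ 1)(1 - σ w'' L)^M`, zero on `H_j(N(1))`
for `j < 2l + 2`; with `f₁ = f ▷ 1`, `x₁ = x₁ f₁ R f₁`, and `f₁ R f₁` is homologically trivial,
so nilpotent: `x₁ = 0`. -/
theorem vanish_high (hA : ∀ M : C, MurreA W M) (hN : NilHom W) (hA' : ∀ M : C', MurreA W' M)
    (hN' : NilHom W') (B : BaseChange W W' Φ)
    {N : C} {n : ℤ} {L : N ⟶ N ⊗ W.T 1} {P : C'} (S : GenericSection W W' Φ N n L P)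
    {ι : Type u} {V : ι → C} (hloc : S.Localisation V)
    (hP : Good W' (P ⊗ W'.T 1)) (hV : ∀ i, Good W (V i ⊗ W.T 1)) (σ : N ⊗ W.T 1 ⟶ N)
    (hσ : ∀ j, n + 1 < j → ∀ y ∈ W.gr N j, (W.H.map (L ≫ σ)).hom y = y)
    (l : ℤ) (hl : n < 2 * l) (f : N ⟶ N) (hf : f ≫ f = f)
    (hf0 : ∀ j, 2 * l ≤ j → ∀ x ∈ W.gr N j, (W.H.map f).hom x = 0) (α : W.CH l N) :
    α ≫ f = 0 := by
  have hadd := B.additive
  have hfaith := B.faithful
  obtain ⟨w', hw'⟩ := exists_trunc (hA N) (2 * l + 1)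
  obtain ⟨w'', hw''⟩ := exists_trunc (hA N) (2 * l + 2)
  obtain ⟨g, hg⟩ := exists_trunc (hA' (P ⊗ W'.T 1)) (2 * l + 1)
  set x : W.T l ⟶ N := α ≫ f with hx
  have hxf : x ≫ f = x := by rw [hx, Category.assoc, hf]
  have hxH : W.H.map x = 0 := by
    apply W.hext
    intro j y _
    rw [hx, W.map_comp_apply, hf0 (2 * l) le_rfl _ (W.map_gr α (2 * l) y (W.mem_gr_tate l y))]
    rfl
  -- (1) restriction to the generic section
  let u : P ⊗ W'.T 1 ⟶ P ⊗ W'.T 1 := S.a ≫ Φ.map (σ ≫ w') ≫ S.b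
  have hgu : W'.H.map (g ≫ u ≫ g) = W'.H.map g := by
    apply W'.hext
    intro j z hz
    rw [W'.map_comp_apply]
    by_cases hj : j < 2 * l + 1
    · rw [hg.zero j hj z hz, map_zero]
    · rw [hg.one j (by omega) z hz, W'.map_comp_apply]
      obtain ⟨y, hy, hzy⟩ := S.surj_b j (by omega) z hz
      have hu : (W'.H.map u).hom z = z := by
        change (W'.H.map (S.a ≫ Φ.map (σ ≫ w') ≫ S.b)).hom z = z
        rw [← hzy, ← W'.map_comp_apply]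
        have h1 : S.b ≫ S.a ≫ Φ.map (σ ≫ w') ≫ S.b = Φ.map ((L ≫ σ) ≫ w') ≫ S.b := by
          rw [← Category.assoc, S.b_a, ← Category.assoc, ← Φ.map_comp]
          simp only [Category.assoc]
        rw [h1, W'.map_comp_apply, bc_id B (f := (L ≫ σ) ≫ w') (j := j) (fun y hy => by
          rw [W.map_comp_apply, hσ j (by omega) y hy, hw'.one j (by omega) y hy]) y hy]
      rw [hu, hg.one j (by omega) z hz]
  obtain ⟨m, hm⟩ := unip hN' (A := Φ.obj (W.T l)) {y | W'.H.map y = 0} g u hg.idem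
    (fun y hy => by
      change W'.H.map (y ≫ (𝟙 _ - u)) = 0
      rw [Functor.map_comp, show W'.H.map y = 0 from hy, zero_comp])
    (fun y hy => hP.trunc hg l le_rfl (B.tate l) y (by
      rw [Functor.map_comp, show W'.H.map y = 0 from hy, zero_comp])) hgu
  let z : W.T l ⟶ N := x ≫ pw (𝟙 _ - L ≫ σ ≫ w') m
  have hzb : Φ.map z ≫ S.b = 0 := by
    change Φ.map (x ≫ pw (𝟙 _ - L ≫ σ ≫ w') m) ≫ S.b = 0
    have hc : Φ.map (𝟙 _ - L ≫ σ ≫ w') ≫ S.b = S.b ≫ (𝟙 _ - u) := by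
      change _ = S.b ≫ (𝟙 _ - S.a ≫ Φ.map (σ ≫ w') ≫ S.b)
      rw [Φ.map_sub, CategoryTheory.Functor.map_id, Preadditive.sub_comp, Preadditive.comp_sub,
        Category.id_comp, Category.comp_id]
      congr 1
      rw [← Category.assoc S.b, S.b_a, Φ.map_comp L, Category.assoc]
    rw [Φ.map_comp, map_pw, Category.assoc, pw_comp hc m, ← Category.assoc]
    apply hm
    change W'.H.map (Φ.map x ≫ S.b) = 0
    rw [Functor.map_comp, bc_hom B hxH, zero_comp]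
  -- (2) the members
  have hzM : ∃ M : ℕ, (z ▷ W.T 1) ≫ pw (𝟙 _ - σ ≫ w'' ≫ L) M = 0 := by
    clear_value z
    have key := hloc l z hzb
    clear hzb
    induction key using Submodule.span_induction with
    | mem γ hγ =>
      obtain ⟨i, mm, ζ, rfl⟩ := hγ
      exact member_nil hA hN mm (hV i) σ hσ l hl hw'' ζ
    | zero =>
      refine ⟨0, ?_⟩
      have h2 : (0 : W.T l ⟶ N) ▷ W.T 1 = 0 := MonoidalPreadditive.zero_whiskerRight
      rw [h2, zero_comp]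
    | add γ δ _ _ hγ hδ =>
      obtain ⟨M, hM⟩ := hγ
      obtain ⟨M', hM'⟩ := hδ
      refine ⟨max M M', ?_⟩
      rw [MonoidalPreadditive.add_whiskerRight, Preadditive.add_comp,
        pw_zero_mono _ _ (le_max_left M M') hM, pw_zero_mono _ _ (le_max_right M M') hM',
        add_zero]
    | smul q γ _ hγ =>
      obtain ⟨M, hM⟩ := hγ
      refine ⟨M, ?_⟩
      rw [MonoidalLinear.smul_whiskerRight, Linear.smul_comp, hM, smul_zero]
  obtain ⟨M, hM⟩ := hzM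
  -- (3) conclusion
  set f₁ : N ⊗ W.T 1 ⟶ N ⊗ W.T 1 := f ▷ W.T 1 with hf₁
  have hf₁0 : ∀ j, 2 * l + 2 ≤ j → ∀ x ∈ W.gr (N ⊗ W.T 1) j, (W.H.map f₁).hom x = 0 :=
    fun j hj => tw_zero f (hf0 (j - 2 * 1) (by omega))
  let R : N ⊗ W.T 1 ⟶ N ⊗ W.T 1 :=
    𝟙 _ - (pw (𝟙 _ - L ≫ σ ≫ w') m ▷ W.T 1) ≫ pw (𝟙 _ - σ ≫ w'' ≫ L) M
  have hxR : (x ▷ W.T 1) ≫ R = x ▷ W.T 1 := by
    change (x ▷ W.T 1) ≫ (𝟙 _ - (pw (𝟙 _ - L ≫ σ ≫ w') m ▷ W.T 1) ≫ pw (𝟙 _ - σ ≫ w'' ≫ L) M) = _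
    rw [Preadditive.comp_sub, Category.comp_id, ← Category.assoc, ← comp_whiskerRight]
    rw [show (x ≫ pw (𝟙 _ - L ≫ σ ≫ w') m) ▷ W.T 1 = z ▷ W.T 1 from rfl, hM, sub_zero]
  have hR : ∀ j, j < 2 * l + 2 → ∀ z ∈ W.gr (N ⊗ W.T 1) j, (W.H.map R).hom z = 0 := by
    intro j hj z hz
    change (W.H.map (𝟙 _ - _)).hom z = 0
    rw [map_one_sub, W.map_comp_apply]
    have h1 : (W.H.map (pw (𝟙 _ - L ≫ σ ≫ w') m ▷ W.T 1)).hom z = z := by
      refine tw_id _ (pw_id _ ?_ m) z hz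
      intro y hy
      rw [map_one_sub, ← Category.assoc, W.map_comp_apply,
        hw'.zero (j - 2 * 1) (by omega) _ (W.map_gr _ _ _ hy), sub_zero]
    have h2 : (W.H.map (pw (𝟙 _ - σ ≫ w'' ≫ L) M)).hom z = z := by
      refine pw_id _ ?_ M z hz
      intro y hy
      rw [map_one_sub, W.map_comp_apply, W.map_comp_apply,
        hw''.zero j hj _ (W.map_gr _ _ _ hy), map_zero, sub_zero]
    rw [h1, h2, sub_self]
  have hx₁ : x ▷ W.T 1 = 0 := by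
    apply nil_kill hN (x ▷ W.T 1) (f₁ ≫ R ≫ f₁)
    · apply W.hext
      intro j z hz
      rw [W.map_comp_apply]
      by_cases hj : 2 * l + 2 ≤ j
      · rw [hf₁0 j hj z hz, map_zero]
        rfl
      · rw [W.map_comp_apply, hR j (by omega) _ (W.map_gr _ _ _ hz), map_zero]
        rfl
    · have h3 : (x ▷ W.T 1) ≫ f₁ = x ▷ W.T 1 := by
        rw [hf₁, ← comp_whiskerRight, hxf]
      rw [← Category.assoc, h3, ← Category.assoc, hxR, h3]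
  exact whisker_faithful (W := W) x 1 hx₁

end Pool.Agent.Helper58.MAD
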