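import Pool.Agent.Helper58.MAD.Nil
import Pool.Agent.Helper58.MAD.Gen
import Pool.Agent.Helper58.MAD.Trace
import Pool.Agent.Helper58.MAD.Kunneth
import Pool.Agent.Helper58.MAD.Lift
import Pool.Agent.Helper58.MAD.Main
import Pool.Agent.Helper58.MAD.Conv

open CategoryTheory MonoidalCategory Limits TensorProduct
open Pool.Agent.Helper15.Murre

universe w v u

namespace Pool.Agent.Helper58.MAD

variable {F : Type w} [Field F] (G : Geometry.{w, v, u} F)

theorem Geometry.eq_zero_of_out {k : G.Fld} (Y : G.Var k) {j : ℤ} (hj : j < 0 ∨ 2 * G.dim Y < j)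
    {x : (G.mot k).W.H.obj (G.h Y)} (hx : x ∈ (G.mot k).W.gr (G.h Y) j) : x = 0 := by
  rw [G.gr_out Y j hj] at hx
  simpa using hx

/-- induction on the dimension (`kunneth_step`) -/
theorem kunneth_all (hS : ∀ (k : G.Fld) (Y : G.Var k), SignConj (G.mot k).W (G.h Y))
    (k : G.Fld) (Y : G.Var k) : KunnethHom (G.mot k).W (G.h Y) := by
  have key : ∀ (n : ℕ) (k : G.Fld) (Y : G.Var k), G.dim Y = n → KunnethHom (G.mot k).W (G.h Y) := by
    intro n
    induction n with
    | zero =>
      intro k Y hY i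
      refine ⟨if i = 0 then 𝟙 _ else 0, ?_⟩
      intro j x hx
      by_cases hj : j = 0
      · subst hj
        by_cases hi : i = 0
        · subst hi
          rw [if_pos rfl, if_pos rfl, (G.mot k).W.map_id_apply]
        · rw [if_neg hi, if_neg (Ne.symm hi), (G.mot k).W.map_zero_apply]
      · have : x = 0 := G.eq_zero_of_out Y (by rw [hY]; push_cast; omega) hx
        rw [this, map_zero]
        split_ifs <;> rfl
    | succ n ih =>
      intro k Y hY
      have hpos : 0 < G.dim Y := by rw [hY]; push_cast; omega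
      obtain ⟨L, ⟨hinj, hsurj⟩, ⟨⟨K, Φ, B, X, S⟩, hX, -⟩, ⟨K₂, Φ₂, B₂, X₂, S₂⟩⟩ :=
        G.lefschetz Y hpos
      have hX' : G.dim X + 1 = G.dim Y := hX
      exact (kunneth_step hinj hsurj (hS k Y) B S
        (ih K X (by rw [hY] at hX'; push_cast at hX'; linarith)) B₂ S₂ (hS K₂ X₂)).1
  have h0 := G.dim_nonneg Y
  exact key (G.dim Y).toNat k Y (by omega)

/-- (A) for all motives (`generated`, `kunneth_all`, Lift) -/
theorem murreA_all (hS : ∀ (k : G.Fld) (Y : G.Var k), SignConj (G.mot k).W (G.h Y))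
    (hN : ∀ k : G.Fld, NilHom (G.mot k).W) (k : G.Fld) (M : (G.mot k).C) :
    MurreA (G.mot k).W M := by
  obtain ⟨Y, m, ⟨R⟩⟩ := G.generated M
  exact murreA_of_kunnethHom (hN k) M (KunnethHom.retract R ((kunneth_all G hS k Y).twist m))

/-- the case of dimension `0` -/
theorem good_zero (hA : ∀ (k : G.Fld) (M : (G.mot k).C), MurreA (G.mot k).W M)
    (hN : ∀ k : G.Fld, NilHom (G.mot k).W) (hD : ∀ k : G.Fld, PureD (G.mot k).W)
    (k : G.Fld) (Y : G.Var k) (hY : G.dim Y = 0) : Good (G.mot k).W (G.h Y) := by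
  have hph := noPhantom_of_nilHom (hN k)
  apply good_of_lt (hA k) (hD k) hph
  intro f hf l hf0 α
  rcases lt_or_ge 0 l with hl | hl
  · rw [G.CH_above Y l (by omega) α, zero_comp]
  · have h1 : f = 0 := by
      apply hph.idem f hf
      apply (G.mot k).W.hext
      intro j x hx
      rcases lt_or_ge j (2 * l) with hj | hj
      · rw [G.eq_zero_of_out Y (Or.inl (by omega)) hx]
        simp
      · rw [hf0 j hj x hx]; rfl
    rw [h1, comp_zero]

/-- T(n): all varieties are good (induction on the dimension, `closure`, `lefschetz`,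
`vanish_low`, `vanish_high`, `good_of_lt`) -/
theorem good_all (hS : ∀ (k : G.Fld) (Y : G.Var k), SignConj (G.mot k).W (G.h Y))
    (hN : ∀ k : G.Fld, NilHom (G.mot k).W) (hD : ∀ k : G.Fld, PureD (G.mot k).W)
    (k : G.Fld) (Y : G.Var k) : Good (G.mot k).W (G.h Y) := by
  have hA := murreA_all G hS hN
  have key : ∀ (n : ℕ) (k : G.Fld) (Y : G.Var k), G.dim Y < n → Good (G.mot k).W (G.h Y) := by
    intro n
    induction n with
    | zero =>
      intro k Y hY
      have := G.dim_nonneg Y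
      push_cast at hY
      omega
    | succ n ih =>
      -- algebraically closed fields
      have hclosed : ∀ (k : G.Fld), G.Closed k → ∀ (Y : G.Var k), G.dim Y < ((n + 1 : ℕ) : ℤ) →
          Good (G.mot k).W (G.h Y) := by
        intro k hk Y hY
        push_cast at hY
        rcases (G.dim_nonneg Y).lt_or_eq with hpos | h0
        · obtain ⟨L, ⟨hinj, hsurj⟩, ⟨⟨K, Φ, B, X, S⟩, hX, hloc⟩, ⟨K₂, Φ₂, B₂, X₂, S₂⟩⟩ :=
            G.lefschetz Y hpos
          have hX' : G.dim X + 1 = G.dim Y := hX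
          obtain ⟨-, ⟨σ, hσ⟩, ρ, hρ⟩ := kunneth_step hinj hsurj (hS k Y) B S
            (kunneth_all G hS K X) B₂ S₂ (hS K₂ X₂)
          have hP : Good (G.mot K).W (G.h X ⊗ (G.mot K).W.T 1) :=
            (ih K X (by omega)).twist 1
          apply good_of_lt (hA k) (hD k) (noPhantom_of_nilHom (hN k))
          intro f hf l hf0 α
          rcases le_or_gt (2 * l) (G.dim Y) with hl | hl
          · exact vanish_low (hA K) (hN K) B S hP ρ hρ l hl f hf hf0 α
          · exact vanish_high (hA k) (hN k) (hA K) (hN K) B S (hloc hk) hP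
              (fun V => (ih k V.1 (by have := V.2; omega)).twist 1) σ hσ l hl f hf hf0 α
        · exact good_zero G hA hN hD k Y h0.symm
      intro k Y hY
      obtain ⟨K, Φ, hK, ⟨B⟩, hcl⟩ := G.closure k
      obtain ⟨Y', hdim, ⟨e⟩⟩ := hcl Y
      exact Good.baseChange B (Good.ofIso e (hclosed K hK Y' (by rw [hdim]; exact hY)))
  have h0 := G.dim_nonneg Y
  exact key ((G.dim Y).toNat + 1) k Y (by push_cast; omega)

theorem good_motive (hS : ∀ (k : G.Fld) (Y : G.Var k), SignConj (G.mot k).W (G.h Y))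
    (hN : ∀ k : G.Fld, NilHom (G.mot k).W) (hD : ∀ k : G.Fld, PureD (G.mot k).W)
    (k : G.Fld) (M : (G.mot k).C) : Good (G.mot k).W M := by
  obtain ⟨Y, m, ⟨R⟩⟩ := G.generated M
  exact Good.retract R ((good_all G hS hN hD k Y).twist m)

theorem murreAll_of (hS : ∀ (k : G.Fld) (Y : G.Var k), SignConj (G.mot k).W (G.h Y))
    (hN : ∀ k : G.Fld, NilHom (G.mot k).W) (hD : ∀ k : G.Fld, PureD (G.mot k).W)
    (k : G.Fld) : MurreAll (G.mot k).W := by
  have hB : ∀ (M : (G.mot k).C) (D : CK (G.mot k).W M), D.MurreB := fun M D =>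
    (good_motive G hS hN hD k M).murreB D
  intro M
  refine ⟨murreA_all G hS hN k M, murreC_of_murreB hB, ?_⟩
  obtain ⟨D⟩ := murreA_all G hS hN k M
  exact ⟨D, hB M D, murreD_of_pureD (hD k) D⟩

/-- The following are equivalent: (1) Murre's conjectures (A), (B), (C), (D) for all motives over
all fields; (2) every motive has a Chow-Kunneth decomposition, and (D) holds for every Chow-Kunneth
decomposition; (3) the sign conjecture for all varieties, nilpotence of the homologically trivial
endomorphisms, and `CH_0(N)_hom = 0` for the motives `N` with `H_*(N) = H_0(N)`; (4) the sign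
conjecture for all varieties, and (D*). -/
theorem tfae : List.TFAE [
    ∀ k : G.Fld, MurreAll (G.mot k).W,
    ∀ (k : G.Fld) (M : (G.mot k).C), MurreA (G.mot k).W M ∧ ∀ D : CK (G.mot k).W M, D.MurreD,
    (∀ (k : G.Fld) (Y : G.Var k), SignConj (G.mot k).W (G.h Y)) ∧
      (∀ k : G.Fld, NilHom (G.mot k).W) ∧ ∀ k : G.Fld, PureD (G.mot k).W,
    (∀ (k : G.Fld) (Y : G.Var k), SignConj (G.mot k).W (G.h Y)) ∧
      ∀ k : G.Fld, LocNil (G.mot k).W] := by
  tfae_have 1 → 2 := fun h k M =>
    ⟨(h k M).1, fun D => murreD_of_pureD (pureD_of_murreAll (h k)) D⟩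
  tfae_have 2 → 3 := by
    intro h
    have hA : ∀ (k : G.Fld) (M : (G.mot k).C), MurreA (G.mot k).W M := fun k M => (h k M).1
    have hD : ∀ k : G.Fld, PureD (G.mot k).W := fun k =>
      pureD_of_murreD (fun M D => (h k M).2 D)
    exact ⟨fun k Y => signConj_of_murreA (hA k _), fun k => nilHom_of_pureD (hA k) (hD k), hD⟩
  tfae_have 3 → 1 := fun h => murreAll_of G h.1 h.2.1 h.2.2
  tfae_have 1 → 4 := fun h =>
    ⟨fun k Y => signConj_of_murreA (h k _).1, fun k => locNil_of_murreAll (h k)⟩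
  tfae_have 4 → 3 := fun h => ⟨h.1, fun k => nilHom_of_locNil (h.2 k),
    fun k => pureD_of_locNil (h.2 k)⟩
  tfae_finish

end Pool.Agent.Helper58.MAD
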