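import Pool.Agent.Helper58.MAD.Final

open CategoryTheory MonoidalCategory Limits
open Pool.Agent.Helper15.Murre Pool.Agent.Helper58.MAD

universe w v u

/-- Murre's conjectures (B) and (C) follow from (A) and (D). In the formal setting `Geometry` (the
Chow motives over all fields `k`, with the classical facts about hyperplane sections) the following
are equivalent:

1. Murre's conjectures (A), (B), (C), (D) for all motives over all fields;
2. every motive has a Chow-Kunneth decomposition, and (D) holds for every Chow-Kunneth
   decomposition;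
3. the sign conjecture for all varieties; homologically trivial endomorphisms of motives are
   nilpotent; and `CH_0(N)_hom = 0` for every motive `N` with `H_*(N) = H_0(N)`;
4. the sign conjecture for all varieties; and (D*): if `θ : N ⟶ N` is zero on `H_j(N)` for all
   `j ≠ 0` then `θ` is locally nilpotent on `CH_0(N)_hom`. -/
theorem Pool.Agent.Helper58.MAD.MurreFromDArchive.result {F : Type w} [Field F]
    (G : Geometry.{w, v, u} F) : List.TFAE [
      ∀ (k : G.Fld) (M : (G.mot k).C), MurreA (G.mot k).W M ∧ MurreC (G.mot k).W M ∧
        ∃ D : CK (G.mot k).W M, D.MurreB ∧ D.MurreD,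
      ∀ (k : G.Fld) (M : (G.mot k).C), MurreA (G.mot k).W M ∧
        ∀ D : CK (G.mot k).W M, D.MurreD,
      (∀ (k : G.Fld) (Y : G.Var k), SignConj (G.mot k).W (G.h Y)) ∧
        (∀ k : G.Fld, NilHom (G.mot k).W) ∧ ∀ k : G.Fld, PureD (G.mot k).W,
      (∀ (k : G.Fld) (Y : G.Var k), SignConj (G.mot k).W (G.h Y)) ∧
        ∀ k : G.Fld, LocNil (G.mot k).W] :=
  tfae G
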